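import Pool.Agent.Q171.GE.Quot

/-! # Inverses of matrices over `K⟨x⟩ ⊗ S`

If a matrix over `K⟨x⟩ ⊗ S` has an inverse after all homomorphisms of a family `S → S'` with
finite dimensional `S'` in which the image of `S` consists of zero and units, then the degree of the
inverses is bounded, and the matrix has an inverse over `K⟨x⟩ ⊗ S`. -/

namespace Pool.Agent.Q171.GE

open Finset TensorProduct

set_option linter.unusedSectionVars false
set_option linter.style.haveILetI false

variable {K : Type*} [Field K] {n : ℕ}
variable {S : Type*} [Ring S] [Algebra K S] {S' : Type*} [Ring S'] [Algebra K S']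
variable {p : Type*} [Fintype p] [DecidableEq p]

lemma map_DT_mul (l : Fin n) (A B : Matrix p p (TS K n S)) :
    (A * B).map (DT l) = A * B.map (DT l) + A.map (DT l) * B.map fun b => iT (eT b) := by
  ext i j
  simp only [Matrix.map_apply, Matrix.mul_apply, Matrix.add_apply, map_sum, DT_mul,
    sum_add_distrib]

/-- the numerators of the iterated right quotients of the inverse -/
noncomputable def QQ (J : Matrix p p (TS K n S)) (r0 : Matrix p p S) :
    List (Fin n) → Matrix p p (TS K n S)
  | [] => 1
  | l :: u => (QQ J r0 u).map (DT l) -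
      J.map (DT l) * (r0.map (iT : S → TS K n S)) * ((QQ J r0 u).map fun b => iT (eT b))

/-- the coefficients of the inverse -/
noncomputable def gg (J : Matrix p p (TS K n S)) (r0 : Matrix p p S) (w : List (Fin n)) :
    Matrix p p S := r0 * (QQ J r0 w).map eT

lemma cf_DTw (w u : List (Fin n)) (a : TS K n S) : cf w (DTw u a) = cf (w ++ u) a := by
  rw [cf, cf, DTw_append]

lemma DegLt.cf {d : ℕ} {a : TS K n S} (ha : DegLt d a) {w : List (Fin n)} (hw : d ≤ w.length) :
    cf w a = 0 := by rw [GE.cf, ha w hw, map_zero]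

lemma DegLt.DTs {d : ℕ} {a : TS K n S} (ha : DegLt (d + 1) a) (l : Fin n) :
    DegLt d (GE.DT l a) := by
  intro w hw
  have := ha (w ++ [l]) (by simpa using hw)
  rwa [DTw_append] at this

variable {J : Matrix p p (TS K n S)} {r0 : Matrix p p S}

lemma QQ_degLt {d : ℕ} (hd : 1 ≤ d) (hJ : ∀ i j, DegLt d (J i j)) (u : List (Fin n)) :
    ∀ i j, DegLt d (QQ J r0 u i j) := by
  induction u with
  | nil =>
    intro i j
    rw [QQ, Matrix.one_apply]
    split_ifs
    · have : (1 : TS K n S) = iT 1 := by rw [map_one]
      rw [this]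
      exact DegLt.iT hd _
    · exact DegLt.zero
  | cons l u ih =>
    intro i j
    rw [QQ, Matrix.sub_apply, Matrix.map_apply]
    apply ((ih i j).DT l).sub
    rw [Matrix.mul_apply]
    apply DegLt.sum
    intro k _
    rw [Matrix.mul_apply, Matrix.map_apply]
    apply DegLt.mul_iT
    apply DegLt.sum
    intro k' _
    rw [Matrix.map_apply, Matrix.map_apply]
    exact ((hJ i k').DT l).mul_iT _

section eval

variable (h : S →ₐ[K] S')

lemma map_map_eT (A : Matrix p p (TS K n S)) :
    ((A.map (mapT h)).map fun b => (iT (eT b) : TS K n S')) = (A.map eT).map fun s => iT (h s) := by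
  ext i j
  simp only [Matrix.map_apply, eT_mapT]

lemma map_DT_inv (h2 : J.map eT * r0 = 1) {G' : Matrix p p (TS K n S')}
    (hG : G' * J.map (mapT h) = 1) (l : Fin n) :
    G'.map (DT l) = -(G' * (J.map (mapT h)).map (DT l) * r0.map fun s => (iT (h s) : TS K n S')) := by
  have e1 : (G' * J.map (mapT h)).map (DT l) = 0 := by
    rw [hG]
    ext i j
    rw [Matrix.map_apply, Matrix.one_apply]
    split_ifs <;> simp
  rw [map_DT_mul, map_map_eT] at e1
  have e2 : ((J.map eT).map fun s => (iT (h s) : TS K n S')) * (r0.map fun s => iT (h s)) = 1 := by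
    have : (J.map eT * r0).map (fun s => (iT (h s) : TS K n S')) = 1 := by
      rw [h2]
      ext i j
      rw [Matrix.map_apply, Matrix.one_apply, Matrix.one_apply]
      split_ifs <;> simp
    rw [← this]
    ext i j
    simp only [Matrix.map_apply, Matrix.mul_apply, map_sum, map_mul]
  have e3 : G'.map (DT l) * ((J.map eT).map fun s => (iT (h s) : TS K n S')) =
      -(G' * (J.map (mapT h)).map (DT l)) := by
    rw [eq_neg_iff_add_eq_zero, add_comm]
    exact e1
  calc G'.map (DT l) = G'.map (DT l) * (((J.map eT).map fun s => (iT (h s) : TS K n S')) *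
        (r0.map fun s => iT (h s))) := by rw [e2, mul_one]
    _ = _ := by rw [← mul_assoc, e3, Matrix.neg_mul]

lemma map_DTw_inv (h2 : J.map eT * r0 = 1) {G' : Matrix p p (TS K n S')}
    (hG : G' * J.map (mapT h) = 1) (u : List (Fin n)) :
    G'.map (DTw u) = G' * (QQ J r0 u).map (mapT h) := by
  induction u with
  | nil =>
    rw [QQ]
    have : (1 : Matrix p p (TS K n S)).map (mapT h) = 1 := by
      ext i j
      rw [Matrix.map_apply, Matrix.one_apply, Matrix.one_apply]
      split_ifs <;> simp
    rw [this, mul_one]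
    ext i j
    rfl
  | cons l u ih =>
    have e1 : G'.map (DTw (l :: u)) = (G'.map (DTw u)).map (DT l) := by
      ext i j; rfl
    rw [e1, ih, map_DT_mul, map_map_eT, map_DT_inv h h2 hG]
    have e2 : (QQ J r0 (l :: u)).map (mapT h) = ((QQ J r0 u).map (mapT h)).map (DT l) -
        (J.map (mapT h)).map (DT l) * (r0.map fun s => (iT (h s) : TS K n S')) *
          ((QQ J r0 u).map eT).map fun s => (iT (h s) : TS K n S') := by
      rw [QQ]
      ext i j
      simp only [Matrix.map_apply, Matrix.mul_apply, Matrix.sub_apply, map_sub, map_sum, map_mul,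
        DT_mapT, mapT_iT]
    rw [e2, mul_sub]
    rw [Matrix.neg_mul, sub_eq_add_neg, mul_assoc, mul_assoc, mul_assoc]

lemma cf_inv (h1 : r0 * J.map eT = 1) (h2 : J.map eT * r0 = 1) {G' : Matrix p p (TS K n S')}
    (hG : G' * J.map (mapT h) = 1) (w : List (Fin n)) (i j : p) :
    cf w (G' i j) = h (gg J r0 w i j) := by
  have e1 : G'.map eT = r0.map h := by
    have e2 : (G' * J.map (mapT h)).map eT = 1 := by
      rw [hG]
      ext i j
      rw [Matrix.map_apply, Matrix.one_apply, Matrix.one_apply]
      split_ifs <;> simp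
    have e3 : G'.map eT * (J.map eT).map h = 1 := by
      rw [← e2]
      ext i j
      simp only [Matrix.map_apply, Matrix.mul_apply, map_sum, map_mul, eT_mapT]
    have e4 : (J.map eT).map h * r0.map h = 1 := by
      have : (J.map eT * r0).map h = 1 := by
        rw [h2]
        ext i j
        rw [Matrix.map_apply, Matrix.one_apply, Matrix.one_apply]
        split_ifs <;> simp
      rw [← this]
      ext i j
      simp only [Matrix.map_apply, Matrix.mul_apply, map_sum, map_mul]
    calc G'.map eT = G'.map eT * ((J.map eT).map h * r0.map h) := by rw [e4, mul_one]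
      _ = _ := by rw [← mul_assoc, e3, one_mul]
  have e5 := congrArg (fun M => (M.map eT) i j) (map_DTw_inv h h2 hG w)
  simp only [Matrix.map_apply, Matrix.mul_apply, map_sum, map_mul, eT_mapT] at e5
  rw [cf, e5, gg, Matrix.mul_apply, map_sum]
  refine sum_congr rfl fun k _ => ?_
  rw [map_mul, Matrix.map_apply]
  congr 1
  exact congrFun (congrFun e1 i) k

/-- the bound for the degree -/
noncomputable def bd (n : ℕ) (p : Type*) [Fintype p] (d : ℕ) : ℕ :=
  Fintype.card p * Nat.card {w : List (Fin n) // w.length < d}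

theorem count {F : Type*} [Field F] [Algebra F S'] [FiniteDimensional F S']
    (hu : ∀ s : S, h s = 0 ∨ IsUnit (h s)) (h1 : r0 * J.map eT = 1) (h2 : J.map eT * r0 = 1)
    {G' : Matrix p p (TS K n S')} (hG : G' * J.map (mapT h) = 1) {d : ℕ} (hd : 1 ≤ d)
    (hJ : ∀ i j, DegLt d (J i j)) (w : List (Fin n)) (hw : bd n p d ≤ w.length) :
    (gg J r0 w).map h = 0 := by
  classical
  by_contra hne
  -- the entries of `G'` have bounded degree
  obtain ⟨D, hD⟩ : ∃ D, ∀ i j, DegLt D (G' i j) := by
    choose D hD using fun i j => exists_degLt (G' i j)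
    refine ⟨∑ i, ∑ j, D i j, fun i j => (hD i j).mono ?_⟩
    exact (single_le_sum (f := fun j => D i j) (fun _ _ => Nat.zero_le _) (mem_univ j)).trans
      (single_le_sum (f := fun i => ∑ j, D i j) (fun _ _ => Nat.zero_le _) (mem_univ i))
  let R : Set ℕ := {r | ∃ v : List (Fin n), v.length = r ∧ (gg J r0 v).map h ≠ 0}
  have hRne : R.Nonempty := ⟨_, w, rfl, hne⟩
  have hRb : BddAbove R := by
    refine ⟨D, ?_⟩
    rintro r ⟨v, rfl, hv⟩
    by_contra hlt
    apply hv
    ext i j
    rw [Matrix.map_apply, ← cf_inv h h1 h2 hG, (hD i j).cf (by omega)]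
    rfl
  obtain ⟨w0, hw0, hg0⟩ := Nat.sSup_mem hRne hRb
  set r := sSup R with hr
  have hmax : ∀ v : List (Fin n), r < v.length → (gg J r0 v).map h = 0 := by
    intro v hv
    by_contra hv'
    exact absurd (le_csSup hRb ⟨v, rfl, hv'⟩) (not_le.2 hv)
  have hrw : w.length ≤ r := le_csSup hRb ⟨w, rfl, hne⟩
  obtain ⟨a, b, hab⟩ : ∃ a b, h (gg J r0 w0 a b) ≠ 0 := by
    by_contra hall
    push Not at hall
    apply hg0
    ext i j
    exact hall i j
  have hunit : IsUnit (h (gg J r0 w0 a b)) := (hu _).resolve_left hab
  haveI : Finite {v : List (Fin n) // v.length < d} := (List.finite_length_lt (Fin n) d).to_subtype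
  letI : Fintype {v : List (Fin n) // v.length < d} := Fintype.ofFinite _
  let u : ℕ → List (Fin n) := fun j => w0.drop (r - j)
  let Φ : (Fin (r + 1) → S') →ₗ[F] (p × {v : List (Fin n) // v.length < d} → S') :=
    { toFun := fun m iv => ∑ j : Fin (r + 1),
        cf iv.2.1 (mapT h (QQ J r0 (u j) iv.1 b)) * m j
      map_add' := fun m m' => by
        funext iv
        simp only [Pi.add_apply, mul_add, sum_add_distrib]
      map_smul' := fun c m => by
        funext iv
        simp only [Pi.smul_apply, RingHom.id_apply, mul_smul_comm, smul_sum] }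
  have hΦ : Function.Injective Φ := by
    rw [← LinearMap.ker_eq_bot, LinearMap.ker_eq_bot']
    intro m hm
    -- the combination vanishes
    have hz : ∀ i, ∑ j : Fin (r + 1), mapT h (QQ J r0 (u j) i b) * iT (m j) = 0 := by
      intro i
      apply eq_zero_of_cf
      intro v
      rw [cf_sum]
      by_cases hv : v.length < d
      · have := congrFun hm (i, ⟨v, hv⟩)
        simp only [cf_mul_iT]
        exact this
      · refine sum_eq_zero fun j _ => ?_
        rw [cf_mul_iT, cf_mapT, (QQ_degLt hd hJ (u j) i b).cf (not_lt.1 hv), map_zero, zero_mul]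
    have hG2 : ∀ v i, ∑ j : Fin (r + 1), h (gg J r0 (v ++ u j) i b) * m j = 0 := by
      intro v i
      have e1 : ∑ k, G' i k * ∑ j : Fin (r + 1), mapT h (QQ J r0 (u j) k b) * iT (m j) = 0 := by
        refine sum_eq_zero fun k _ => ?_
        rw [hz, mul_zero]
      have e2 : ∑ k, G' i k * ∑ j : Fin (r + 1), mapT h (QQ J r0 (u j) k b) * iT (m j) =
          ∑ j : Fin (r + 1), DTw (u j) (G' i b) * iT (m j) := by
        simp only [mul_sum]
        rw [sum_comm]
        refine sum_congr rfl fun j _ => ?_
        have := congrFun (congrFun (map_DTw_inv h h2 hG (u j)) i) b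
        rw [Matrix.map_apply, Matrix.mul_apply] at this
        rw [this, sum_mul]
        refine sum_congr rfl fun k _ => ?_
        rw [Matrix.map_apply, mul_assoc]
      rw [e2] at e1
      have e3 := congrArg (cf v) e1
      rw [cf_zero, cf_sum] at e3
      rw [← e3]
      refine sum_congr rfl fun j _ => ?_
      rw [cf_mul_iT, cf_DTw, cf_inv h h1 h2 hG]
    have key : ∀ j : ℕ, ∀ hj : j < r + 1, m ⟨j, hj⟩ = 0 := by
      intro j
      induction j using Nat.strong_induction_on with
      | _ j ih =>
        intro hj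
        have e := hG2 (w0.take (r - j)) a
        rw [Finset.sum_eq_single (⟨j, hj⟩ : Fin (r + 1))] at e
        · have e4 : w0.take (r - j) ++ u j = w0 := List.take_append_drop _ _
          simp only [e4] at e
          exact (hunit.mul_right_eq_zero).1 e
        · intro j' _ hj'
          rcases lt_trichotomy j' ⟨j, hj⟩ with h3 | h3 | h3
          · have : m j' = 0 := ih j' h3 j'.2
            rw [this, mul_zero]
          · exact absurd h3 hj'
          · have h5 : (gg J r0 (w0.take (r - j) ++ u j')).map h = 0 := by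
              apply hmax
              have h6 : j < (j' : ℕ) := h3
              have h7 : (j' : ℕ) < r + 1 := j'.2
              simp only [u, List.length_append, List.length_take, List.length_drop, hw0]
              omega
            have := congrFun (congrFun h5 a) b
            rw [Matrix.map_apply] at this
            rw [this]
            exact zero_mul _
        · simp
    funext j
    exact key j j.2
  have hfr := LinearMap.finrank_le_finrank_of_injective hΦ
  rw [Module.finrank_pi_fintype, Module.finrank_pi_fintype, sum_const, sum_const] at hfr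
  simp only [card_univ, Fintype.card_fin, Fintype.card_prod, smul_eq_mul] at hfr
  haveI : Nontrivial S' := ⟨_, _, hab⟩
  have hpos : 0 < Module.finrank F S' := Module.finrank_pos
  have hle := Nat.le_of_mul_le_mul_right hfr hpos
  rw [bd, Nat.card_eq_fintype_card] at hw
  omega

end eval

/-- **Inverses over `K⟨x⟩ ⊗ S`.** -/
theorem exists_left_inv_TS {I : Type*} (F : I → Type*) [∀ i, Field (F i)] (S' : I → Type*)
    [∀ i, Ring (S' i)] [∀ i, Algebra K (S' i)] [∀ i, Algebra (F i) (S' i)]
    [∀ i, FiniteDimensional (F i) (S' i)] (h : ∀ i, S →ₐ[K] S' i)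
    (hinj : ∀ s : S, (∀ i, h i s = 0) → s = 0)
    (hu : ∀ i (s : S), h i s = 0 ∨ IsUnit (h i s))
    (h1 : r0 * J.map eT = 1) (h2 : J.map eT * r0 = 1)
    (hG : ∀ i, ∃ G' : Matrix p p (TS K n (S' i)), G' * J.map (mapT (h i)) = 1) :
    ∃ G : Matrix p p (TS K n S), G * J = 1 := by
  classical
  choose G' hG' using hG
  obtain ⟨d, hd, hJ⟩ : ∃ d, 1 ≤ d ∧ ∀ i j, DegLt d (J i j) := by
    choose D hD using fun i j => exists_degLt (J i j)
    refine ⟨∑ i, ∑ j, D i j + 1, Nat.le_add_left _ _, fun i j => (hD i j).mono ?_⟩
    exact ((single_le_sum (f := fun j => D i j) (fun _ _ => Nat.zero_le _) (mem_univ j)).trans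
      (single_le_sum (f := fun i => ∑ j, D i j) (fun _ _ => Nat.zero_le _)
        (mem_univ i))).trans (Nat.le_succ _)
  have hg : ∀ w : List (Fin n), bd n p d ≤ w.length → ∀ i j, gg J r0 w i j = 0 := by
    intro w hw i j
    apply hinj
    intro k
    have := count (h k) (F := F k) (hu k) h1 h2 (hG' k) hd hJ w hw
    exact congrFun (congrFun this i) j
  have hex : ∀ i j, ∃ a : TS K n S, ∀ w, cf w a = gg J r0 w i j := fun i j =>
    exists_of_cf (bd n p d) (fun w => gg J r0 w i j) fun w hw => hg w hw i j
  choose G hGc using hex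
  refine ⟨Matrix.of G, ?_⟩
  have hev : ∀ k, (Matrix.of G).map (mapT (h k)) = G' k := by
    intro k
    ext i j
    apply ext_cf
    intro w
    rw [Matrix.map_apply, Matrix.of_apply, cf_mapT, hGc, cf_inv (h k) h1 h2 (hG' k)]
  ext i j
  rw [← sub_eq_zero]
  apply eq_zero_of_cf
  intro w
  apply hinj
  intro k
  rw [← cf_mapT, map_sub]
  have e : (Matrix.of G * J).map (mapT (h k)) = 1 := by
    rw [← hG' k, ← hev k]
    ext i j
    simp only [Matrix.map_apply, Matrix.mul_apply, map_sum, map_mul]
  have e2 := congrFun (congrFun e i) j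
  rw [Matrix.map_apply] at e2
  rw [e2, Matrix.one_apply, Matrix.one_apply]
  split_ifs <;> simp [cf_zero]

end Pool.Agent.Q171.GE
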