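import Pool.Agent.Q171.GE.Quot

/-! # Generic cyclic matrices -/

namespace Pool.Agent.Q171.GE

open Finset

set_option linter.unusedSectionVars false

variable {K : Type*} [Field K] {n : ℕ} {ι : Type} [Fintype ι] [DecidableEq ι]

/-- the coefficients -/
abbrev R0 (K : Type*) [Field K] (n : ℕ) (ι : Type) := MvPolynomial (Fin n × ι) K

/-- the generic matrices adapted to the permutation `σ` -/
noncomputable def YY (K : Type*) [Field K] (n : ℕ) (σ : Equiv.Perm ι) (i : Fin n) :
    Matrix ι ι (Polynomial (R0 K n ι)) :=
  fun j j' => if j' = σ j then Polynomial.X * Polynomial.C (MvPolynomial.X (i, j)) else 0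

/-- evaluation at the generic matrices -/
noncomputable def ev (K : Type*) [Field K] (n : ℕ) (σ : Equiv.Perm ι) :
    FA K n →ₐ[K] Matrix ι ι (Polynomial (R0 K n ι)) := FreeAlgebra.lift K (YY K n σ)

variable (σ : Equiv.Perm ι)

@[simp] lemma ev_ι (i : Fin n) : ev K n σ (FreeAlgebra.ι K i) = YY K n σ i := by simp [ev]

lemma ev_algebraMap (r : K) (j j' : ι) :
    ev K n σ (algebraMap K _ r) j j' = if j = j' then algebraMap K _ r else 0 := by
  rw [AlgHom.commutes, Matrix.algebraMap_matrix_apply]

lemma ev_supp (f : FA K n) : ∀ (k : ℕ) (j j' : ι), (ev K n σ f j j').coeff k ≠ 0 →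
    j' = (σ ^ k) j := by
  induction f using FreeAlgebra.induction with
  | grade0 r =>
    intro k j j' h
    rw [ev_algebraMap] at h
    split_ifs at h with h1
    · rw [Polynomial.algebraMap_apply, Polynomial.coeff_C] at h
      split_ifs at h with h2
      · subst h2; simpa using h1.symm
      · exact absurd rfl h
    · simp at h
  | grade1 i =>
    intro k j j' h
    rw [ev_ι, YY] at h
    split_ifs at h with h1
    · rw [mul_comm, Polynomial.coeff_C_mul, Polynomial.coeff_X] at h
      split_ifs at h with h2
      · subst h2; simpa using h1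
      · simp at h
    · simp at h
  | mul f g hf hg =>
    intro k j j' h
    rw [map_mul, Matrix.mul_apply, Polynomial.finsetSum_coeff] at h
    obtain ⟨l, _, hl⟩ := Finset.exists_ne_zero_of_sum_ne_zero h
    rw [Polynomial.coeff_mul] at hl
    obtain ⟨⟨a, b⟩, hab, hl⟩ := Finset.exists_ne_zero_of_sum_ne_zero hl
    have h1 := hf a j l (left_ne_zero_of_mul hl)
    have h2 := hg b l j' (right_ne_zero_of_mul hl)
    have hab : a + b = k := HasAntidiagonal.mem_antidiagonal.1 hab
    rw [h2, h1, ← hab, add_comm, pow_add, Equiv.Perm.mul_apply]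
  | add f g hf hg =>
    intro k j j' h
    rw [map_add, Matrix.add_apply, Polynomial.coeff_add] at h
    by_cases h1 : (ev K n σ f j j').coeff k = 0
    · rw [h1, zero_add] at h
      exact hg k j j' h
    · exact hf k j j' h1

/-- the shift of the coefficients -/
noncomputable def shift (K : Type*) [Field K] (n : ℕ) (σ : Equiv.Perm ι) :
    R0 K n ι →ₐ[K] R0 K n ι := MvPolynomial.rename (Prod.map id σ)

lemma shift_injective : Function.Injective (shift K n σ) :=
  MvPolynomial.rename_injective _ (Function.injective_id.prodMap σ.injective)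

lemma shift_ev (f : FA K n) : ∀ j j' : ι,
    (ev K n σ f j j').map (shift K n σ : R0 K n ι →+* R0 K n ι) = ev K n σ f (σ j) (σ j') := by
  induction f using FreeAlgebra.induction with
  | grade0 r =>
    intro j j'
    rw [ev_algebraMap, ev_algebraMap]
    simp only [EmbeddingLike.apply_eq_iff_eq]
    split_ifs
    · rw [Polynomial.algebraMap_apply, Polynomial.map_C]
      simp
    · simp
  | grade1 i =>
    intro j j'
    rw [ev_ι, YY, YY]
    simp only [EmbeddingLike.apply_eq_iff_eq]
    split_ifs
    · rw [Polynomial.map_mul, Polynomial.map_X, Polynomial.map_C]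
      simp [shift]
    · simp
  | mul f g hf hg =>
    intro j j'
    rw [map_mul, Matrix.mul_apply, Matrix.mul_apply, Polynomial.map_sum]
    conv_rhs => rw [← Equiv.sum_comp σ]
    refine sum_congr rfl fun l _ => ?_
    rw [Polynomial.map_mul, hf, hg]
  | add f g hf hg =>
    intro j j'
    rw [map_add, Matrix.add_apply, Matrix.add_apply, Polynomial.map_add, hf, hg]

/-- the leading coefficients -/
noncomputable def lc (f : FA K n) (k : ℕ) (j : ι) : R0 K n ι := (ev K n σ f j ((σ ^ k) j)).coeff k

lemma shift_lc (f : FA K n) (k : ℕ) (j : ι) : shift K n σ (lc σ f k j) = lc σ f k (σ j) := by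
  rw [lc, lc]
  have h1 : (σ ^ k) (σ j) = σ ((σ ^ k) j) := by
    rw [← Equiv.Perm.mul_apply, ← Equiv.Perm.mul_apply, ← pow_succ, ← pow_succ']
  rw [h1, ← shift_ev, Polynomial.coeff_map]
  rfl

lemma lc_ne (f : FA K n) (k : ℕ) (hσ : ∀ j j', ∃ i : ℕ, (σ ^ i) j = j') {j : ι}
    (h : lc σ f k j ≠ 0) (j' : ι) : lc σ f k j' ≠ 0 := by
  obtain ⟨i, rfl⟩ := hσ j j'
  induction i with
  | zero => simpa using h
  | succ i ih =>
    rw [pow_succ', Equiv.Perm.mul_apply, ← shift_lc]
    intro h0
    exact ih (shift_injective σ (by rw [h0, map_zero]))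

/-- the value at the generic matrices is zero or nonsingular -/
theorem ev_zero_or_det (hσ : ∀ j j', ∃ i : ℕ, (σ ^ i) j = j') (f : FA K n) :
    ev K n σ f = 0 ∨ (ev K n σ f).det ≠ 0 := by
  classical
  by_cases h0 : ∀ k j, lc σ f k j = 0
  · left
    refine Matrix.ext fun j j' => Polynomial.ext fun k => ?_
    rw [Matrix.zero_apply, Polynomial.coeff_zero]
    by_contra hne
    have := ev_supp σ f k j j' hne
    subst this
    exact hne (h0 k j)
  · right
    push Not at h0
    obtain ⟨k0, j0, h0⟩ := h0
    let R : Set ℕ := {k | ∃ j, lc σ f k j ≠ 0}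
    have hRne : R.Nonempty := ⟨k0, j0, h0⟩
    have hRb : BddAbove R := by
      refine ⟨∑ i, ∑ j, (ev K n σ f i j).natDegree, ?_⟩
      rintro k ⟨j, hj⟩
      refine (Polynomial.le_natDegree_of_ne_zero hj).trans ?_
      exact (single_le_sum (f := fun j' => (ev K n σ f j j').natDegree)
        (fun _ _ => Nat.zero_le _) (mem_univ _)).trans
        (single_le_sum (f := fun i => ∑ j', (ev K n σ f i j').natDegree)
          (fun _ _ => Nat.zero_le _) (mem_univ j))
    obtain ⟨j1, hj1⟩ := Nat.sSup_mem hRne hRb
    set k := sSup R with hk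
    have hdeg : ∀ j j', (ev K n σ f j j').natDegree ≤ k := by
      intro j j'
      rw [Polynomial.natDegree_le_iff_coeff_eq_zero]
      intro k' hk'
      by_contra hne
      have := ev_supp σ f k' j j' hne
      subst this
      exact absurd (le_csSup hRb ⟨j, hne⟩) (not_le.2 hk')
    have hall := lc_ne σ f k hσ hj1
    -- the top coefficient of the determinant
    let B : Matrix ι ι (R0 K n ι) := fun j j' => (ev K n σ f j j').coeff k
    have h1 : (ev K n σ f).det.coeff (Fintype.card ι * k) = B.det := by
      rw [Matrix.det_apply', Matrix.det_apply', Polynomial.finsetSum_coeff]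
      refine sum_congr rfl fun π _ => ?_
      have h2 : ((Equiv.Perm.sign π : ℤ) : Polynomial (R0 K n ι)) =
          Polynomial.C (((Equiv.Perm.sign π : ℤ) : R0 K n ι)) := by simp
      rw [h2, Polynomial.coeff_C_mul]
      congr 1
      exact Polynomial.coeff_prod_of_natDegree_le _ _ _ fun j _ => hdeg _ _
    have h2 : B = (Matrix.diagonal fun j => lc σ f k j).submatrix id ((σ ^ k)⁻¹ : Equiv.Perm ι) := by
      refine Matrix.ext fun j j' => ?_
      rw [Matrix.submatrix_apply, Matrix.diagonal_apply]
      by_cases h3 : id j = ((σ ^ k)⁻¹ : Equiv.Perm ι) j'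
      · rw [if_pos h3]
        have : j' = (σ ^ k) j := by
          rw [id_eq] at h3
          rw [h3]; simp
        rw [this]
        rfl
      · rw [if_neg h3]
        by_contra hne
        apply h3
        have := ev_supp σ f k j j' hne
        rw [this]; simp
    have h3 : B.det ≠ 0 := by
      rw [h2, Matrix.det_permute', Matrix.det_diagonal]
      apply mul_ne_zero
      · rcases Int.units_eq_one_or (Equiv.Perm.sign (σ ^ k)⁻¹) with h | h <;> simp [h]
      · exact Finset.prod_ne_zero_iff.2 fun j _ => hall j
    intro h4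
    rw [h4, Polynomial.coeff_zero] at h1
    exact h3 h1.symm

/-! ## Faithfulness -/

/-- iterated right quotients -/
noncomputable def rqw : List (Fin n) → FA K n →ₗ[K] FA K n
  | [] => LinearMap.id
  | l :: u => rq l ∘ₗ rqw u

lemma rqw_append (v u : List (Fin n)) (f : FA K n) : rqw (v ++ u) f = rqw v (rqw u f) := by
  induction v with
  | nil => rfl
  | cons l v ih =>
    rw [List.cons_append]
    change rq l (rqw (v ++ u) f) = rq l (rqw v (rqw u f))
    rw [ih]

lemma DTw_tmul {S : Type*} [Ring S] [Algebra K S] (w : List (Fin n)) (f : FA K n) (s : S) :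
    DTw w (TensorProduct.tmul K f s : TS K n S) = TensorProduct.tmul K (rqw w f) s := by
  induction w with
  | nil => rfl
  | cons l w ih => rw [DTw_cons, ih, DT_tmul]; rfl

theorem eq_zero_of_rqw {f : FA K n} (h : ∀ w, eps (rqw w f) = 0) : f = 0 := by
  have h1 : (TensorProduct.tmul K f 1 : TS K n K) = 0 := by
    apply eq_zero_of_cf
    intro w
    rw [cf, DTw_tmul, eT_tmul, h w, map_zero, zero_mul]
  have h2 := congrArg (TensorProduct.rid K (FA K n)) h1
  simpa using h2

/-- specialization along a labelling of the states -/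
noncomputable def spc (K : Type*) [Field K] (n : ℕ) (s : ι → Option (Fin n)) :
    R0 K n ι →ₐ[K] K := MvPolynomial.aeval fun ij => if s ij.2 = some ij.1 then 1 else 0

lemma ev_rq (f : FA K n) (j j' : ι) :
    ev K n σ f j (σ j') = (if j = σ j' then algebraMap K _ (eps f) else 0) +
      ∑ i, ev K n σ (rq i f) j j' * (Polynomial.X * Polynomial.C (MvPolynomial.X (i, j'))) := by
  conv_lhs => rw [rq_sum f]
  rw [map_add, Matrix.add_apply, ev_algebraMap, map_sum, Matrix.sum_apply]
  congr 1
  refine sum_congr rfl fun i _ => ?_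
  rw [map_mul, Matrix.mul_apply, Finset.sum_eq_single j']
  · rw [ev_ι, YY, if_pos rfl]
  · intro l _ hl
    rw [ev_ι, YY, if_neg (fun h => hl (σ.injective h).symm), mul_zero]
  · simp

lemma coeff_ev (s : ι → Option (Fin n)) (w : List (Fin n)) : ∀ (f : FA K n) (j : ι),
    (∀ i (hi : i < w.length), s ((σ ^ i) j) = some (w[i])) →
    spc K n s ((ev K n σ f j ((σ ^ w.length) j)).coeff w.length) = eps (rqw w f) := by
  induction w using List.reverseRecOn with
  | nil =>
    intro f j _
    simp only [List.length_nil, pow_zero, Equiv.Perm.coe_one, id_eq]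
    change _ = eps f
    -- the constant term
    have : ∀ f : FA K n, ∀ j : ι, (ev K n σ f j j).coeff 0 = algebraMap K _ (eps f) := by
      intro f j
      obtain ⟨j', rfl⟩ := σ.surjective j
      rw [ev_rq σ f (σ j') j', if_pos rfl, Polynomial.coeff_add,
        Polynomial.finsetSum_coeff, Polynomial.algebraMap_apply, Polynomial.coeff_C_zero]
      rw [Finset.sum_eq_zero, add_zero]
      intro i _
      rw [Polynomial.mul_coeff_zero, Polynomial.mul_coeff_zero]
      simp
    rw [this]
    simp
  | append_singleton w l ih =>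
    intro f j hs
    rw [List.length_append, List.length_singleton, pow_succ', Equiv.Perm.mul_apply,
      ev_rq σ f j _, Polynomial.coeff_add, map_add, Polynomial.finsetSum_coeff,
      map_sum]
    have h1 : (if j = σ ((σ ^ w.length) j) then
        (algebraMap K (Polynomial (R0 K n ι)) (eps f)) else 0).coeff (w.length + 1) = 0 := by
      split_ifs
      · rw [Polynomial.algebraMap_apply, Polynomial.coeff_C_succ]
      · simp
    rw [h1, map_zero, zero_add]
    have h2 : ∀ i, (ev K n σ (rq i f) j ((σ ^ w.length) j) *
        (Polynomial.X * Polynomial.C (MvPolynomial.X (i, (σ ^ w.length) j)))).coeff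
          (w.length + 1) = (ev K n σ (rq i f) j ((σ ^ w.length) j)).coeff w.length *
            MvPolynomial.X (i, (σ ^ w.length) j) := by
      intro i
      rw [← mul_assoc, Polynomial.coeff_mul_C, Polynomial.coeff_mul_X]
    have hl : s ((σ ^ w.length) j) = some l := by
      have := hs w.length (by simp)
      simpa using this
    rw [Finset.sum_eq_single l]
    · rw [h2, map_mul, ih (rq l f) j, rqw_append]
      · have : spc K n s (MvPolynomial.X (l, (σ ^ w.length) j)) = 1 := by
          simp [spc, hl]
        rw [this, mul_one]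
        rfl
      · intro i hi
        have := hs i (by simp; omega)
        rw [this]
        simp [hi]
    · intro i _ hi
      rw [h2, map_mul]
      have : spc K n s (MvPolynomial.X (i, (σ ^ w.length) j)) = 0 := by
        simp [spc, hl, Ne.symm hi]
      rw [this, mul_zero]
    · simp

end Pool.Agent.Q171.GE
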