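import Pool.Agent.Q171.GE.Jac

/-! # Good endomorphisms have nonsingular Jacobian matrices -/

namespace Pool.Agent.Q171.GE

open Finset MulOpposite TensorProduct

set_option linter.unusedSectionVars false

universe u

variable {K : Type u} [Field K] {n : ℕ}

/-- the augmentation ideal: the elements without constant term -/
noncomputable def aug (K : Type u) [Field K] (n : ℕ) : Submodule K (FA K n) :=
  LinearMap.ker (eps (K := K) (n := n)).toLinearMap

lemma mem_aug {f : FA K n} : f ∈ aug K n ↔ eps f = 0 := Iff.rfl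

/-- good endomorphisms -/
def Good (φ : FA K n →ₐ[K] FA K n) : Prop :=
  ∀ m : ℕ, 1 ≤ m → ∃ (ψ : FA K n →ₐ[K] FA K n) (θ : FA K n ≃ₐ[K] FA K n),
    (∀ f, φ f = ψ (θ f)) ∧ ∀ i, ψ (FreeAlgebra.ι K i) - FreeAlgebra.ι K i ∈ aug K n ^ m

/-! ## Determinants -/

section det

variable {q : Type} [Fintype q] [DecidableEq q] {p : Type*} [Fintype p] [DecidableEq p]
variable {A' : Type*} [Ring A'] [Algebra K A'] {R : Type*} [CommRing R] [Algebra K R]
variable {R' : Type*} [CommRing R'] [Algebra K R']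

/-- the determinant of the image of a matrix -/
noncomputable def Dt (χ : A' →ₐ[K] Matrix q q R) (M : Matrix p p A') : R :=
  (Matrix.comp p p q q R (M.map χ)).det

lemma Dt_mul (χ : A' →ₐ[K] Matrix q q R) (M N : Matrix p p A') :
    Dt χ (M * N) = Dt χ M * Dt χ N := by
  rw [Dt, Dt, Dt, ← Matrix.det_mul]
  congr 1
  have h := map_mul (Matrix.compRingEquiv p q R) (M.map χ) (N.map χ)
  have h2 : (M * N).map χ = M.map χ * N.map χ := by
    ext1 i j
    simp only [Matrix.map_apply, Matrix.mul_apply, map_sum, map_mul]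
  rw [h2]
  exact h

lemma Dt_one (χ : A' →ₐ[K] Matrix q q R) : Dt χ (1 : Matrix p p A') = 1 := by
  rw [Dt]
  have h2 : (1 : Matrix p p A').map χ = 1 := by
    ext1 i j
    rw [Matrix.map_apply, Matrix.one_apply, Matrix.one_apply]
    split_ifs <;> simp
  rw [h2]
  have h := map_one (Matrix.compRingEquiv p q R)
  have h3 : Matrix.comp p p q q R 1 = 1 := h
  rw [h3, Matrix.det_one]

lemma Dt_map (g : R →ₐ[K] R') (χ : A' →ₐ[K] Matrix q q R) (M : Matrix p p A') :
    g (Dt χ M) = Dt (g.mapMatrix.comp χ) M := by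
  rw [Dt, Dt, AlgHom.map_det]
  rfl

lemma Dt_congr (I : Ideal R) (χ χ' : A' →ₐ[K] Matrix q q R) (M N : Matrix p p A')
    (h : ∀ i j a b, (χ (M i j) - χ' (N i j)) a b ∈ I) : Dt χ M - Dt χ' N ∈ I := by
  rw [← Ideal.Quotient.eq, Dt, Dt, RingHom.map_det, RingHom.map_det]
  congr 1
  ext ⟨i, a⟩ ⟨j, b⟩
  simp only [RingHom.mapMatrix_apply, Matrix.map_apply, Matrix.comp_apply]
  rw [Ideal.Quotient.eq]
  exact h i j a b

lemma Dt_isUnit (χ : A' →ₐ[K] Matrix q q R) {G M : Matrix p p A'} (h : G * M = 1) :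
    IsUnit (Dt χ M) := by
  have := Dt_mul χ G M
  rw [h, Dt_one] at this
  exact IsUnit.of_mul_eq_one_right _ this.symm

lemma eq_zero_of_Dt {F : Type*} [Field F] [Algebra K F] (χ : A' →ₐ[K] Matrix q q F)
    (M : Matrix p p A') (h : Dt χ M ≠ 0) (w : p → q → F)
    (hw : ∀ i, ∑ j, (χ (M i j)).mulVec (w j) = 0) : w = 0 := by
  have h1 : (Matrix.comp p p q q F (M.map χ)).mulVec (fun ja => w ja.1 ja.2) = 0 := by
    funext ⟨i, a⟩
    have e := congrFun (hw i) a
    rw [Finset.sum_apply] at e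
    rw [Matrix.mulVec, dotProduct, Fintype.sum_prod_type]
    exact e
  have h2 := Matrix.eq_zero_of_mulVec_eq_zero h h1
  funext j a
  exact congrFun h2 (j, a)

end det

/-! ## Divisibility by powers of the variable -/

section div

variable {q : Type} [Fintype q] [DecidableEq q] {F : Type*} [Field F] [Algebra K F]

/-- divisible by `t ^ m` -/
def Dv (m : ℕ) (M : Matrix q q (Polynomial F)) : Prop := ∀ a b, Polynomial.X ^ m ∣ M a b

lemma Dv.zero' (M : Matrix q q (Polynomial F)) : Dv 0 M := fun a b => by simp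

lemma Dv.add {m : ℕ} {M N : Matrix q q (Polynomial F)} (hM : Dv m M) (hN : Dv m N) :
    Dv m (M + N) := fun a b => dvd_add (hM a b) (hN a b)

lemma Dv.mul {m l : ℕ} {M N : Matrix q q (Polynomial F)} (hM : Dv m M) (hN : Dv l N) :
    Dv (m + l) (M * N) := fun a b => by
  rw [Matrix.mul_apply, pow_add]
  exact Finset.dvd_sum fun c _ => mul_dvd_mul (hM a c) (hN c b)

lemma Dv.sum {ι : Type*} {s : Finset ι} {m : ℕ} {M : ι → Matrix q q (Polynomial F)}
    (h : ∀ i ∈ s, Dv m (M i)) : Dv m (∑ i ∈ s, M i) := fun a b => by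
  rw [Matrix.sum_apply]
  exact Finset.dvd_sum fun i hi => h i hi a b

lemma Dv.mul_any {m : ℕ} {M : Matrix q q (Polynomial F)} (hM : Dv m M)
    (N : Matrix q q (Polynomial F)) : Dv m (M * N) := by
  have := hM.mul (Dv.zero' N)
  rwa [add_zero] at this

lemma Dv.any_mul {m : ℕ} (N : Matrix q q (Polynomial F)) {M : Matrix q q (Polynomial F)}
    (hM : Dv m M) : Dv m (N * M) := by
  have := (Dv.zero' N).mul hM
  rwa [zero_add] at this

lemma aug_sum {f : FA K n} (hf : f ∈ aug K n) : f = ∑ i, rq i f * FreeAlgebra.ι K i := by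
  conv_lhs => rw [rq_sum f]
  rw [mem_aug.1 hf, map_zero, zero_add]

lemma Dv_aug (Φ : FA K n →ₐ[K] Matrix q q (Polynomial F))
    (hΦ : ∀ i, Dv 1 (Φ (FreeAlgebra.ι K i))) (m : ℕ) :
    ∀ f ∈ aug K n ^ m, Dv m (Φ f) := by
  induction m with
  | zero => intro f _; exact Dv.zero' _
  | succ m ih =>
    intro f hf
    rw [pow_succ] at hf
    refine Submodule.mul_induction_on hf ?_ ?_
    · intro g hg h hh
      rw [map_mul]
      apply (ih g hg).mul
      rw [aug_sum hh, map_sum]
      apply Dv.sum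
      intro i _
      rw [map_mul]
      exact (hΦ i).any_mul _
    · intro g h hg hh
      rw [map_add]; exact hg.add hh

lemma Dv_Jd (Φ : TT K n →ₐ[K] Matrix q q (Polynomial F))
    (h1 : ∀ i, Dv 1 (Φ (lT (FreeAlgebra.ι K i)))) (h2 : ∀ i, Dv 1 (Φ (rT (FreeAlgebra.ι K i))))
    (i : Fin n) (m : ℕ) : ∀ f ∈ aug K n ^ (m + 1), Dv m (Φ (Jd i f)) := by
  induction m with
  | zero => intro f _; exact Dv.zero' _
  | succ m ih =>
    intro f hf
    rw [pow_succ] at hf
    refine Submodule.mul_induction_on hf ?_ ?_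
    · intro g hg h hh
      rw [Jd_mul, map_add, map_mul, map_mul]
      apply Dv.add
      · exact (Dv_aug (Φ.comp lT) h1 (m + 1) g hg).mul_any _
      · rw [add_comm m 1]
        apply Dv.mul
        · have e : h = ∑ i, rq i h * FreeAlgebra.ι K i := aug_sum hh
          have e2 : (rT h : TT K n) = ∑ i, rT (FreeAlgebra.ι K i) * rT (rq i h) := by
            rw [e]
            conv_lhs => rw [rT, op_sum, map_sum]
            refine sum_congr rfl fun i _ => ?_
            rw [← e]
            exact rT_mul _ _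
          rw [e2, map_sum]
          apply Dv.sum
          intro i _
          rw [map_mul]
          exact (h2 i).mul_any _
        · exact ih g hg
    · intro g h hg hh
      rw [map_add, map_add]; exact hg.add hh

end div

/-- **The Jacobian matrix of a good endomorphism is nonsingular.** -/
theorem nonSingT_of_good {φ : FA K n →ₐ[K] FA K n} (hφ : Good φ) (F : Type*) [Field F]
    [Algebra K F] : NonSingT F (jac φ) := by
  classical
  intro q _ _ χ w hw
  -- the scaled homomorphism
  let a : Fin n → Matrix q q (Polynomial F) := fun i =>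
    (Polynomial.X : Polynomial F) • (χ (lT (FreeAlgebra.ι K i))).map Polynomial.C
  let b : Fin n → Matrix q q (Polynomial F) := fun i =>
    (Polynomial.X : Polynomial F) • (χ (rT (FreeAlgebra.ι K i))).map Polynomial.C
  have hab : ∀ i j, Commute (a i) (b j) := by
    intro i j
    have h1 : Commute (χ (lT (FreeAlgebra.ι K i))) (χ (rT (FreeAlgebra.ι K j))) := by
      rw [Commute, SemiconjBy, ← map_mul, ← map_mul, lT_rT_comm]
    have h2 := h1.map (Polynomial.C : F →+* Polynomial F).mapMatrix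
    exact (h2.smul_left _).smul_right _
  let χt : TT K n →ₐ[K] Matrix q q (Polynomial F) := pH a b hab
  have hl : ∀ i, χt (lT (FreeAlgebra.ι K i)) = a i := by
    intro i; rw [pH_lT, FreeAlgebra.lift_ι_apply]
  have hr : ∀ i, χt (rT (FreeAlgebra.ι K i)) = b i := by
    intro i; rw [pH_rT, FreeAlgebra.lift_ι_apply, unop_op]
  have hl1 : ∀ i, Dv 1 (χt (lT (FreeAlgebra.ι K i))) := by
    intro i c d
    rw [hl, pow_one]
    change Polynomial.X ∣ Polynomial.X * Polynomial.C (χ (lT (FreeAlgebra.ι K i)) c d)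
    exact dvd_mul_right _ _
  have hr1 : ∀ i, Dv 1 (χt (rT (FreeAlgebra.ι K i))) := by
    intro i c d
    rw [hr, pow_one]
    change Polynomial.X ∣ Polynomial.X * Polynomial.C (χ (rT (FreeAlgebra.ι K i)) c d)
    exact dvd_mul_right _ _
  let e1 : Polynomial F →ₐ[K] F := (Polynomial.aeval (1 : F)).restrictScalars K
  have hχ1 : e1.mapMatrix.comp χt = χ := by
    apply TT_hom_ext
    · intro i
      rw [AlgHom.comp_apply, hl]
      ext c d
      simp [a, e1]
    · intro i
      rw [AlgHom.comp_apply, hr]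
      ext c d
      simp [b, e1]
  set U : Polynomial F := Dt χt (jac φ) with hU
  have key : ∀ m : ℕ, 1 ≤ m → ∃ c : F, c ≠ 0 ∧ Polynomial.X ^ m ∣ U - Polynomial.C c := by
    intro m hm
    obtain ⟨ψ, θ, hφ', hψ⟩ := hφ (m + 1) (by omega)
    have e : φ = ψ.comp (θ : FA K n →ₐ[K] FA K n) := AlgHom.ext hφ'
    have h1 : U = Dt χt ((jac (θ : FA K n →ₐ[K] FA K n)).map (mTT ψ)) * Dt χt (jac ψ) := by
      rw [hU, e, jac_comp, Dt_mul]
    have h2 : IsUnit (Dt χt ((jac (θ : FA K n →ₐ[K] FA K n)).map (mTT ψ))) := by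
      have h3 := congrArg (fun M => M.map (mTT ψ)) (jac_equiv θ)
      have h4 : (((jac (θ.symm : FA K n →ₐ[K] FA K n)).map
          (mTT (θ : FA K n →ₐ[K] FA K n))).map (mTT ψ)) *
          (jac (θ : FA K n →ₐ[K] FA K n)).map (mTT ψ) = 1 := by
        have h5 : (1 : Matrix (Fin n) (Fin n) (TT K n)).map (mTT ψ) = 1 := by
          ext1 i j
          rw [Matrix.map_apply, Matrix.one_apply]
          split_ifs <;> simp
        rw [← h5, ← h3]
        ext1 i j
        simp only [Matrix.map_apply, Matrix.mul_apply, map_sum, map_mul]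
      exact Dt_isUnit χt h4
    obtain ⟨c, hc, hc2⟩ := Polynomial.isUnit_iff.1 h2
    refine ⟨c, hc.ne_zero, ?_⟩
    have h3 : Dt χt (jac ψ) - 1 ∈ Ideal.span {(Polynomial.X : Polynomial F) ^ m} := by
      rw [← Dt_one χt (p := Fin n)]
      apply Dt_congr
      intro k i c d
      rw [Ideal.mem_span_singleton]
      have h4 : (1 : Matrix (Fin n) (Fin n) (TT K n)) k i = Jd i (FreeAlgebra.ι K k) := by
        rw [Jd_ι, Matrix.one_apply]
      rw [h4, jac, Matrix.of_apply, ← map_sub, ← map_sub]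
      exact Dv_Jd χt hl1 hr1 i m _ (hψ k) c d
    rw [Ideal.mem_span_singleton] at h3
    rw [h1, ← hc2]
    have : Polynomial.C c * Dt χt (jac ψ) - Polynomial.C c =
        Polynomial.C c * (Dt χt (jac ψ) - 1) := by ring
    rw [this]
    exact h3.mul_left _
  obtain ⟨c, hc, hcd⟩ := key 1 le_rfl
  have hU2 : U = Polynomial.C c := by
    rw [← sub_eq_zero]
    ext d
    rw [Polynomial.coeff_zero]
    obtain ⟨c', hc', hcd'⟩ := key (d + 1) (by omega)
    have h0 : c' = c := by
      have h1 := Polynomial.X_pow_dvd_iff.1 hcd' 0 (by omega)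
      have h2 := Polynomial.X_pow_dvd_iff.1 hcd 0 (by omega)
      rw [Polynomial.coeff_sub, Polynomial.coeff_C_zero] at h1 h2
      rw [← sub_eq_zero.1 h1, ← sub_eq_zero.1 h2]
    rw [← h0]
    exact Polynomial.X_pow_dvd_iff.1 hcd' d (by omega)
  have hD : Dt χ (jac φ) ≠ 0 := by
    rw [← hχ1, ← Dt_map, ← hU, hU2]
    simpa [e1] using hc
  exact eq_zero_of_Dt χ _ hD w hw

end Pool.Agent.Q171.GE
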