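import Pool.Agent.Q171.GE.JacT

/-! # The Jacobian matrix of an endomorphism of a free algebra -/

namespace Pool.Agent.Q171.GE

open Finset MulOpposite TensorProduct

set_option linter.unusedSectionVars false

universe u

variable {K : Type u} [Field K] {n : ℕ}

/-- `K⟨x⟩ ⊗ K⟨x⟩ᵒᵖ` -/
abbrev TT (K : Type u) [Field K] (n : ℕ) := TS K n (FA K n)ᵐᵒᵖ

/-- the left factor -/
noncomputable def lT : FA K n →ₐ[K] TT K n := Algebra.TensorProduct.includeLeft

/-- the right factor -/
noncomputable def rT (g : FA K n) : TT K n := iT (op g)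

lemma lT_apply (f : FA K n) : (lT f : TT K n) = f ⊗ₜ 1 := rfl
lemma rT_apply (g : FA K n) : (rT g : TT K n) = 1 ⊗ₜ op g := rfl

lemma rT_mul (f g : FA K n) : (rT (f * g) : TT K n) = rT g * rT f := by
  rw [rT, rT, rT, op_mul, map_mul]

lemma rT_add (f g : FA K n) : (rT (f + g) : TT K n) = rT f + rT g := by
  rw [rT, rT, rT, op_add, map_add]

lemma rT_one : (rT 1 : TT K n) = 1 := by rw [rT, op_one, map_one]

lemma rT_smul (c : K) (f : FA K n) : (rT (c • f) : TT K n) = c • rT f := by
  rw [rT, rT, op_smul, map_smul]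

lemma lT_mul_rT (f g : FA K n) : (lT f : TT K n) * rT g = f ⊗ₜ op g := by
  rw [lT_apply, rT_apply, Algebra.TensorProduct.tmul_mul_tmul, mul_one, one_mul]

lemma rT_mul_lT (f g : FA K n) : (rT g : TT K n) * lT f = f ⊗ₜ op g := by
  rw [lT_apply, rT_apply, Algebra.TensorProduct.tmul_mul_tmul, mul_one, one_mul]

lemma lT_rT_comm (f g : FA K n) : (lT f : TT K n) * rT g = rT g * lT f := by
  rw [lT_mul_rT, rT_mul_lT]

/-- auxiliary representation -/
noncomputable def JE (i : Fin n) : FA K n →ₐ[K] Module.End K (TT K n × FA K n) :=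
  FreeAlgebra.lift K fun k =>
    { toFun := fun q => (lT (FreeAlgebra.ι K k) * q.1 + (if k = i then rT q.2 else 0),
        FreeAlgebra.ι K k * q.2)
      map_add' := fun q q' => by
        refine Prod.ext ?_ ?_
        · simp only [Prod.fst_add, Prod.snd_add, mul_add]
          split_ifs
          · rw [rT_add]; abel
          · abel
        · simp only [Prod.snd_add, mul_add]
      map_smul' := fun c q => by
        refine Prod.ext ?_ ?_
        · simp only [Prod.smul_fst, Prod.smul_snd, RingHom.id_apply, mul_smul_comm, smul_add]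
          split_ifs
          · rw [rT_smul]
          · rw [smul_zero]
        · simp only [Prod.smul_snd, RingHom.id_apply, mul_smul_comm] }

/-- the partial derivatives `u x_i v ↦ u ⊗ v` -/
noncomputable def Jd (i : Fin n) : FA K n →ₗ[K] TT K n :=
  (LinearMap.fst K _ _) ∘ₗ (LinearMap.applyₗ ((0, 1) : TT K n × FA K n)) ∘ₗ (JE i).toLinearMap

lemma Jd_def (i : Fin n) (f : FA K n) : Jd i f = (JE i f (0, 1)).1 := rfl

lemma JE_ι (i k : Fin n) (q : TT K n × FA K n) : JE i (FreeAlgebra.ι K k) q =
    (lT (FreeAlgebra.ι K k) * q.1 + (if k = i then rT q.2 else 0), FreeAlgebra.ι K k * q.2) := by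
  rw [JE, FreeAlgebra.lift_ι_apply]; rfl

lemma JE_apply (i : Fin n) (f : FA K n) : ∀ (t : TT K n) (g : FA K n),
    JE i f (t, g) = (lT f * t + rT g * Jd i f, f * g) := by
  induction f using FreeAlgebra.induction with
  | grade0 r =>
    intro t g
    rw [Jd_def, AlgHom.commutes, Module.algebraMap_end_apply, Module.algebraMap_end_apply]
    refine Prod.ext ?_ ?_
    · change r • t = lT (algebraMap K (FA K n) r) * t + rT g * (r • (0 : TT K n))
      rw [smul_zero, mul_zero, add_zero, AlgHom.commutes, ← Algebra.smul_def]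
    · exact Algebra.smul_def r g
  | grade1 k =>
    intro t g
    rw [Jd_def, JE_ι, JE_ι]
    refine Prod.ext ?_ ?_
    · simp only [mul_zero, zero_add]
      split_ifs
      · rw [rT_one, mul_one]
      · rw [mul_zero]
    · rfl
  | mul f f' hf hf' =>
    intro t g
    have h1 : Jd i (f * f') = lT f * Jd i f' + rT f' * Jd i f := by
      rw [Jd_def, map_mul, Module.End.mul_apply, hf', hf]
      simp [rT_one]
    rw [map_mul, Module.End.mul_apply, hf', hf, h1]
    refine Prod.ext ?_ ?_
    · simp only [map_mul, mul_add, ← mul_assoc, rT_mul]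
      rw [lT_rT_comm]
      abel
    · simp only [mul_assoc]
  | add f f' hf hf' =>
    intro t g
    rw [map_add, LinearMap.add_apply, hf, hf', map_add, map_add]
    refine Prod.ext ?_ ?_
    · simp only [Prod.mk_add_mk, add_mul, mul_add]
      abel
    · simp only [Prod.mk_add_mk, add_mul]

lemma Jd_mul (i : Fin n) (f g : FA K n) : Jd i (f * g) = lT f * Jd i g + rT g * Jd i f := by
  rw [Jd_def, map_mul, Module.End.mul_apply, JE_apply i g, JE_apply i f]
  simp [rT_one]

lemma Jd_ι (i k : Fin n) : Jd i (FreeAlgebra.ι K k) = if k = i then 1 else 0 := by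
  rw [Jd_def, JE_ι]
  simp [rT_one]

lemma Jd_algebraMap (i : Fin n) (r : K) : Jd i (algebraMap K (FA K n) r) = 0 := by
  rw [Jd_def, AlgHom.commutes, Module.algebraMap_end_apply]
  simp

/-- `f ⊗ 1 - 1 ⊗ f` -/
noncomputable def dl (f : FA K n) : TT K n := lT f - rT f

lemma dl_sum (f : FA K n) : dl f = ∑ i, Jd i f * dl (FreeAlgebra.ι K i) := by
  induction f using FreeAlgebra.induction with
  | grade0 r =>
    simp only [Jd_algebraMap, zero_mul, sum_const_zero]
    rw [dl, rT, AlgHom.commutes, ← MulOpposite.algebraMap_apply, AlgHom.commutes, sub_self]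
  | grade1 k => simp [Jd_ι]
  | mul f g hf hg =>
    have h1 : dl (f * g) = lT f * dl g + rT g * dl f := by
      rw [dl, dl, dl, map_mul, rT_mul, mul_sub, mul_sub, lT_rT_comm f g]
      abel
    rw [h1, hf, hg, mul_sum, mul_sum, ← sum_add_distrib]
    refine sum_congr rfl fun i _ => ?_
    rw [Jd_mul, add_mul, mul_assoc, mul_assoc]
  | add f g hf hg =>
    have h1 : dl (f + g) = dl f + dl g := by
      rw [dl, dl, dl, map_add, rT_add]; abel
    rw [h1, hf, hg, ← sum_add_distrib]
    refine sum_congr rfl fun i _ => ?_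
    rw [map_add, add_mul]

/-! ## The chain rule -/

/-- `ψ ⊗ ψ` -/
noncomputable def mTT (ψ : FA K n →ₐ[K] FA K n) : TT K n →ₐ[K] TT K n :=
  Algebra.TensorProduct.map ψ (AlgHom.op ψ)

@[simp] lemma mTT_lT (ψ : FA K n →ₐ[K] FA K n) (f : FA K n) : mTT ψ (lT f) = lT (ψ f) := by
  rw [lT_apply, lT_apply, mTT, Algebra.TensorProduct.map_tmul, map_one]

@[simp] lemma mTT_rT (ψ : FA K n →ₐ[K] FA K n) (f : FA K n) : mTT ψ (rT f) = rT (ψ f) := by
  rw [rT_apply, rT_apply, mTT, Algebra.TensorProduct.map_tmul, map_one]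
  rfl

lemma Jd_chain (ψ : FA K n →ₐ[K] FA K n) (i : Fin n) (f : FA K n) :
    Jd i (ψ f) = ∑ k, mTT ψ (Jd k f) * Jd i (ψ (FreeAlgebra.ι K k)) := by
  induction f using FreeAlgebra.induction with
  | grade0 r => simp [Jd_algebraMap]
  | grade1 k => simp [Jd_ι]
  | mul f g hf hg =>
    rw [map_mul, Jd_mul, hf, hg, mul_sum, mul_sum, ← sum_add_distrib]
    refine sum_congr rfl fun k _ => ?_
    rw [Jd_mul, map_add, map_mul, map_mul, mTT_lT, mTT_rT, add_mul, mul_assoc, mul_assoc]
  | add f g hf hg =>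
    rw [map_add, map_add, hf, hg, ← sum_add_distrib]
    refine sum_congr rfl fun k _ => ?_
    rw [map_add, map_add, add_mul]

/-- the Jacobian matrix -/
noncomputable def jac (φ : FA K n →ₐ[K] FA K n) : Matrix (Fin n) (Fin n) (TT K n) :=
  Matrix.of fun k i => Jd i (φ (FreeAlgebra.ι K k))

lemma jac_comp (ψ θ : FA K n →ₐ[K] FA K n) :
    jac (ψ.comp θ) = (jac θ).map (mTT ψ) * jac ψ := by
  ext k i
  rw [Matrix.mul_apply]
  exact Jd_chain ψ i (θ (FreeAlgebra.ι K k))

lemma jac_id : jac (AlgHom.id K (FA K n)) = 1 := by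
  ext k i
  rw [jac, Matrix.of_apply, AlgHom.id_apply, Jd_ι, Matrix.one_apply]

lemma jac_equiv (θ : FA K n ≃ₐ[K] FA K n) :
    (jac (θ.symm : FA K n →ₐ[K] FA K n)).map (mTT (θ : FA K n →ₐ[K] FA K n)) *
      jac (θ : FA K n →ₐ[K] FA K n) = 1 := by
  rw [← jac_comp, ← jac_id]
  congr 1
  ext x
  simp

/-! ## Homomorphisms to matrix rings -/

section pair

variable {B : Type*} [Ring B] [Algebra K B]

/-- the homomorphism of the right factor -/
noncomputable def rH (b : Fin n → B) : (FA K n)ᵐᵒᵖ →ₐ[K] B :=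
  AlgHom.opComm (FreeAlgebra.lift K fun i => op (b i))

lemma rH_op (b : Fin n → B) (g : FA K n) :
    rH b (op g) = (FreeAlgebra.lift K (fun i => op (b i)) g).unop := rfl

lemma pair_comm (a b : Fin n → B) (hab : ∀ i j, Commute (a i) (b j)) (f : FA K n)
    (g : (FA K n)ᵐᵒᵖ) : Commute (FreeAlgebra.lift K a f) (rH b g) := by
  obtain ⟨g, rfl⟩ := op_surjective g
  induction f using FreeAlgebra.induction with
  | grade0 r => rw [AlgHom.commutes]; exact Algebra.commute_algebraMap_left _ _
  | grade1 i =>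
    rw [FreeAlgebra.lift_ι_apply]
    induction g using FreeAlgebra.induction with
    | grade0 r =>
      rw [← MulOpposite.algebraMap_apply, AlgHom.commutes]
      exact Algebra.commute_algebraMap_right _ _
    | grade1 j =>
      rw [rH_op, FreeAlgebra.lift_ι_apply]
      exact hab i j
    | mul g h hg hh =>
      rw [op_mul, map_mul]; exact hh.mul_right hg
    | add g h hg hh =>
      rw [op_add, map_add]; exact hg.add_right hh
  | mul f g hf hg => rw [map_mul]; exact hf.mul_left hg
  | add f g hf hg => rw [map_add]; exact hf.add_left hg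

/-- the homomorphism given by two commuting tuples -/
noncomputable def pH (a b : Fin n → B) (hab : ∀ i j, Commute (a i) (b j)) : TT K n →ₐ[K] B :=
  Algebra.TensorProduct.lift (FreeAlgebra.lift K a) (rH b) (pair_comm a b hab)

lemma pH_lT (a b : Fin n → B) (hab : ∀ i j, Commute (a i) (b j)) (f : FA K n) :
    pH a b hab (lT f) = FreeAlgebra.lift K a f := by
  rw [lT_apply, pH, Algebra.TensorProduct.lift_tmul, map_one, mul_one]

lemma pH_rT (a b : Fin n → B) (hab : ∀ i j, Commute (a i) (b j)) (g : FA K n) :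
    pH a b hab (rT g) = (FreeAlgebra.lift K (fun i => op (b i)) g).unop := by
  rw [rT_apply, pH, Algebra.TensorProduct.lift_tmul, map_one, one_mul, rH_op]

lemma TT_hom_ext {χ χ' : TT K n →ₐ[K] B}
    (h1 : ∀ i, χ (lT (FreeAlgebra.ι K i)) = χ' (lT (FreeAlgebra.ι K i)))
    (h2 : ∀ i, χ (rT (FreeAlgebra.ι K i)) = χ' (rT (FreeAlgebra.ι K i))) : χ = χ' := by
  have e1 : ∀ f, χ (lT f) = χ' (lT f) := by
    intro f
    have : χ.comp lT = χ'.comp lT := FreeAlgebra.hom_ext (funext h1)
    exact congrArg (fun h => h f) this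
  have e2 : ∀ g, χ (rT g) = χ' (rT g) := by
    intro g
    induction g using FreeAlgebra.induction with
    | grade0 r => rw [rT, ← MulOpposite.algebraMap_apply, AlgHom.commutes, AlgHom.commutes,
        AlgHom.commutes]
    | grade1 i => exact h2 i
    | mul f g hf hg => rw [rT_mul, map_mul, map_mul, hf, hg]
    | add f g hf hg => rw [rT_add, map_add, map_add, hf, hg]
  refine AlgHom.ext fun z => ?_
  induction z using TensorProduct.induction_on with
  | zero => simp
  | add a b ha hb => rw [map_add, map_add, ha, hb]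
  | tmul f g =>
    obtain ⟨g, rfl⟩ := op_surjective g
    rw [← lT_mul_rT, map_mul, map_mul, e1, e2]

end pair

end Pool.Agent.Q171.GE
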