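import Pool.Agent.Q171.GE.LemT
import Pool.Agent.Q171.GE.Cyclic

/-! # Matrices over `K⟨x⟩ ⊗ K⟨x⟩ᵒᵖ` which are nonsingular on all finite dimensional bimodules -/

namespace Pool.Agent.Q171.GE

open Finset MulOpposite

set_option linter.unusedSectionVars false

universe u

variable {K : Type u} [Field K] {n : ℕ} {p : Type*} [Fintype p] [DecidableEq p]

/-! ## Two-sided inverses -/

lemma map_rq_mul (l : Fin n) (A B : Matrix p p (FA K n)) :
    (A * B).map (rq l) = A * B.map (rq l) + A.map (rq l) * B.map fun b => algebraMap K _ (eps b) := by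
  ext i j
  simp only [Matrix.map_apply, Matrix.mul_apply, Matrix.add_apply, map_sum, rq_mul,
    sum_add_distrib]

theorem mul_eq_one_comm_FA {G P : Matrix p p (FA K n)} (h : G * P = 1) : P * G = 1 := by
  set Q := 1 - P * G with hQ
  have h0 : G * Q = 0 := by
    rw [hQ, mul_sub, mul_one, ← mul_assoc, h, one_mul, sub_self]
  have he : P.map eps * G.map eps = 1 := by
    rw [mul_eq_one_comm]
    have : (G * P).map eps = 1 := by
      rw [h]
      ext i j
      rw [Matrix.map_apply, Matrix.one_apply, Matrix.one_apply]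
      split_ifs <;> simp
    rw [← this]
    ext i j
    simp only [Matrix.map_apply, Matrix.mul_apply, map_sum, map_mul]
  have key : ∀ w : List (Fin n), G * Q.map (rqw w) = 0 ∧ (Q.map (rqw w)).map eps = 0 := by
    have hz : ∀ X : Matrix p p (FA K n), G * X = 0 → X.map eps = 0 := by
      intro X hX
      have h1 : G.map eps * X.map eps = 0 := by
        have : (G * X).map eps = 0 := by
          rw [hX]; ext i j; simp
        rw [← this]
        ext i j
        simp only [Matrix.map_apply, Matrix.mul_apply, map_sum, map_mul]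
      calc X.map eps = (P.map eps * G.map eps) * X.map eps := by rw [he, one_mul]
        _ = 0 := by rw [mul_assoc, h1, mul_zero]
    intro w
    induction w with
    | nil =>
      have : Q.map (rqw []) = Q := by ext i j; rfl
      rw [this]
      exact ⟨h0, hz _ h0⟩
    | cons l w ih =>
      have h1 : Q.map (rqw (l :: w)) = (Q.map (rqw w)).map (rq l) := by ext i j; rfl
      have h2 : G * Q.map (rqw (l :: w)) = 0 := by
        rw [h1]
        have h3 := map_rq_mul l G (Q.map (rqw w))
        rw [ih.1] at h3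
        have h4 : (0 : Matrix p p (FA K n)).map (rq l) = 0 := by ext i j; simp
        have h5 : ((Q.map (rqw w)).map fun b => algebraMap K (FA K n) (eps b)) = 0 := by
          ext i j
          have := congrFun (congrFun ih.2 i) j
          rw [Matrix.map_apply] at this ⊢
          rw [this]; simp
        rw [h4, h5, mul_zero, add_zero] at h3
        exact h3.symm
      exact ⟨h2, hz _ h2⟩
  have hQ0 : Q = 0 := by
    ext i j
    apply eq_zero_of_rqw
    intro w
    exact congrFun (congrFun (key w).2 i) j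
  rw [hQ, sub_eq_zero] at hQ0
  exact hQ0.symm

/-! ## The family of cyclic matrices -/

/-- the cyclic shift of the states -/
def cyc (N : ℕ) : Equiv.Perm (ZMod (N + 1)) := Equiv.addRight 1

lemma cyc_pow (N i : ℕ) (j : ZMod (N + 1)) : (cyc N ^ i) j = j + i := by
  induction i with
  | zero => simp
  | succ i ih => rw [pow_succ', Equiv.Perm.mul_apply, ih, cyc, Equiv.coe_addRight]; push_cast; ring

lemma cyc_trans (N : ℕ) (j j' : ZMod (N + 1)) : ∃ i : ℕ, (cyc N ^ i) j = j' := by
  refine ⟨(j' - j).val, ?_⟩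
  rw [cyc_pow, ZMod.natCast_zmod_val]
  ring

/-- the field of the entries -/
abbrev FF (K : Type u) [Field K] (n N : ℕ) : Type u :=
  FractionRing (Polynomial (R0 K n (ZMod (N + 1))))

/-- `op g ↦ g(Y)ᵀ` -/
noncomputable def hN (K : Type u) [Field K] (n N : ℕ) :
    (FA K n)ᵐᵒᵖ →ₐ[K] Matrix (ZMod (N + 1)) (ZMod (N + 1)) (FF K n N) :=
  ((Matrix.transposeAlgEquiv (ZMod (N + 1)) K (FF K n N)).symm.toAlgHom).comp
    (AlgHom.op (((IsScalarTower.toAlgHom K (Polynomial (R0 K n (ZMod (N + 1))))
      (FF K n N)).mapMatrix).comp (ev K n (cyc N))))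

lemma hN_apply (N : ℕ) (g : (FA K n)ᵐᵒᵖ) : hN K n N g =
    ((ev K n (cyc N) g.unop).map (algebraMap _ (FF K n N))).transpose := rfl

lemma hN_zero_or_unit (N : ℕ) (g : (FA K n)ᵐᵒᵖ) : hN K n N g = 0 ∨ IsUnit (hN K n N g) := by
  rcases ev_zero_or_det (cyc N) (cyc_trans N) g.unop with h | h
  · left
    rw [hN_apply, h]
    ext i j; simp
  · right
    rw [hN_apply, Matrix.isUnit_iff_isUnit_det, Matrix.det_transpose, isUnit_iff_ne_zero]
    have : ((ev K n (cyc N) g.unop).map (algebraMap _ (FF K n N))).det =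
        algebraMap _ (FF K n N) (ev K n (cyc N) g.unop).det := by
      rw [RingHom.map_det]; rfl
    rw [this]
    intro h0
    exact h ((IsFractionRing.injective _ (FF K n N)) (by rw [h0, map_zero]))

lemma hN_inj (g : (FA K n)ᵐᵒᵖ) (hg : ∀ N, hN K n N g = 0) : g = 0 := by
  have : g.unop = 0 := by
    apply eq_zero_of_rqw
    intro w
    have h1 := hg w.length
    have h2 : ev K n (cyc w.length) g.unop = 0 := by
      refine Matrix.ext fun i j => ?_
      have := congrFun (congrFun h1 j) i
      rw [hN_apply, Matrix.transpose_apply, Matrix.map_apply] at this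
      exact (IsFractionRing.injective _ (FF K n w.length)) (by rw [this]; simp)
    have h3 := coeff_ev (K := K) (cyc w.length) (fun j => w[j.val]?) w g.unop 0 (by
      intro i hi
      rw [cyc_pow, zero_add, ZMod.val_cast_of_lt (by omega)]
      exact List.getElem?_eq_getElem hi)
    rw [← h3, h2]
    simp
  exact unop_injective this

lemma NonSingT.map {S : Type*} [Ring S] [Algebra K S] {S' : Type*} [Ring S'] [Algebra K S']
    {F : Type*} [Field F] [Algebra K F] {J : Matrix p p (TS K n S)} (h : S →ₐ[K] S')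
    (hJ : NonSingT F J) : NonSingT F (J.map (mapT h)) := by
  intro q _ _ χ w hw
  exact hJ q (χ.comp (mapT h)) w hw

theorem exists_inv_eT (J : Matrix p p (TS K n (FA K n)ᵐᵒᵖ)) (hJ : NonSingT K J) :
    ∃ r0 : Matrix p p (FA K n)ᵐᵒᵖ, r0 * J.map eT = 1 ∧ J.map eT * r0 = 1 := by
  classical
  let st : (FA K n)ᵐᵒᵖ ≃ₐ[K] FA K n := FreeAlgebra.starHom.symm
  let P0 : Matrix p p (FA K n) := (J.map eT).map st
  have hns : NonSing P0 := by
    intro N X w hw
    exact hJ (Fin N) (((FreeAlgebra.lift K X).comp st.toAlgHom).comp eT) w hw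
  obtain ⟨G0, hG0⟩ := exists_left_inv P0 hns
  have hG1 := mul_eq_one_comm_FA hG0
  let r0 : Matrix p p (FA K n)ᵐᵒᵖ := G0.map st.symm
  have hP0 : J.map eT = P0.map st.symm := by
    ext i j
    simp [P0]
  refine ⟨r0, ?_, ?_⟩
  · rw [hP0]
    have : (G0 * P0).map st.symm = 1 := by
      rw [hG0]
      ext i j
      rw [Matrix.map_apply, Matrix.one_apply, Matrix.one_apply]
      split_ifs <;> simp
    rw [← this]
    ext i j
    simp only [r0, Matrix.map_apply, Matrix.mul_apply, map_sum, map_mul]
  · rw [hP0]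
    have : (P0 * G0).map st.symm = 1 := by
      rw [hG1]
      ext i j
      rw [Matrix.map_apply, Matrix.one_apply, Matrix.one_apply]
      split_ifs <;> simp
    rw [← this]
    ext i j
    simp only [r0, Matrix.map_apply, Matrix.mul_apply, map_sum, map_mul]

/-- a matrix over `K⟨x⟩ ⊗ K⟨x⟩ᵒᵖ` which is nonsingular under all homomorphisms to matrix rings over
fields has a left inverse -/
theorem exists_left_inv_bimod (J : Matrix p p (TS K n (FA K n)ᵐᵒᵖ))
    (hJ : ∀ (F : Type u) [Field F] [Algebra K F], NonSingT F J) :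
    ∃ G : Matrix p p (TS K n (FA K n)ᵐᵒᵖ), G * J = 1 := by
  obtain ⟨r0, h1, h2⟩ := exists_inv_eT J (hJ K)
  exact exists_left_inv_TS (fun N => FF K n N)
    (fun N => Matrix (ZMod (N + 1)) (ZMod (N + 1)) (FF K n N)) (fun N => hN K n N) hN_inj
    (fun N g => hN_zero_or_unit N g) h1 h2
    (fun N => exists_left_inv_TM _ ((hJ (FF K n N)).map (hN K n N)))

end Pool.Agent.Q171.GE
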