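import Mathlib

/-! # Matrices over free algebras which are nonsingular on all finite dimensional representations -/

namespace Pool.Agent.Q171.GE

open Finset

/-- the free associative algebra `K⟨x_1, …, x_n⟩` -/
abbrev FA (K : Type*) [CommSemiring K] (n : ℕ) := FreeAlgebra K (Fin n)

section Rep

variable {K : Type*} [Field K] {n : ℕ}
variable {M : Type*} [AddCommGroup M] [Module K M] [Module (FA K n) M] [IsScalarTower K (FA K n) M]

lemma exists_fd (f : FA K n) : ∀ v : M, ∃ U : Submodule K M, FiniteDimensional K U ∧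
    ∀ X : Fin n → Module.End K M, (∀ i, ∀ u ∈ U, X i u = (FreeAlgebra.ι K i : FA K n) • u) →
      FreeAlgebra.lift K X f v = f • v := by
  induction f using FreeAlgebra.induction with
  | grade0 r =>
    intro v
    refine ⟨⊥, inferInstance, fun X _ => ?_⟩
    rw [AlgHom.commutes, Module.algebraMap_end_apply, algebraMap_smul]
  | grade1 i =>
    intro v
    refine ⟨Submodule.span K {v}, inferInstance, fun X hX => ?_⟩
    rw [FreeAlgebra.lift_ι_apply]
    exact hX i v (Submodule.mem_span_singleton_self v)
  | mul f g hf hg =>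
    intro v
    obtain ⟨U₁, h₁, k₁⟩ := hg v
    obtain ⟨U₂, h₂, k₂⟩ := hf (g • v)
    refine ⟨U₁ ⊔ U₂, inferInstance, fun X hX => ?_⟩
    rw [map_mul, Module.End.mul_apply, k₁ X fun i u hu => hX i u (Submodule.mem_sup_left hu),
      k₂ X fun i u hu => hX i u (Submodule.mem_sup_right hu), mul_smul]
  | add f g hf hg =>
    intro v
    obtain ⟨U₁, h₁, k₁⟩ := hf v
    obtain ⟨U₂, h₂, k₂⟩ := hg v
    refine ⟨U₁ ⊔ U₂, inferInstance, fun X hX => ?_⟩
    rw [map_add, LinearMap.add_apply, k₁ X fun i u hu => hX i u (Submodule.mem_sup_left hu),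
      k₂ X fun i u hu => hX i u (Submodule.mem_sup_right hu), add_smul]

lemma lift_restrict {V W : Type*} [AddCommGroup V] [Module K V] [AddCommGroup W] [Module K W]
    (s : W →ₗ[K] V) (X : Fin n → Module.End K V) (Y : Fin n → Module.End K W)
    (h : ∀ i w, X i (s w) = s (Y i w)) (f : FA K n) :
    ∀ w, FreeAlgebra.lift K X f (s w) = s (FreeAlgebra.lift K Y f w) := by
  induction f using FreeAlgebra.induction with
  | grade0 r =>
    intro w
    rw [AlgHom.commutes, AlgHom.commutes, Module.algebraMap_end_apply,
      Module.algebraMap_end_apply, map_smul]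
  | grade1 i =>
    intro w
    rw [FreeAlgebra.lift_ι_apply, FreeAlgebra.lift_ι_apply, h]
  | mul f g hf hg =>
    intro w
    rw [map_mul, map_mul, Module.End.mul_apply, Module.End.mul_apply, hg, hf]
  | add f g hf hg =>
    intro w
    rw [map_add, map_add, LinearMap.add_apply, LinearMap.add_apply, hf, hg, map_add]

variable {k : Type*} [Fintype k]

/-- a relation in some module gives a relation in a finite dimensional representation -/
theorem exists_rep (P : Matrix k k (FA K n)) (v : k → M) (hv : v ≠ 0)
    (h : ∀ i, ∑ j, P i j • v j = 0) :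
    ∃ (N : ℕ) (X : Fin n → Matrix (Fin N) (Fin N) K) (w : k → Fin N → K), w ≠ 0 ∧
      ∀ i, ∑ j, (FreeAlgebra.lift K X (P i j)).mulVec (w j) = 0 := by
  classical
  choose U hU kU using fun (i : k) (j : k) => exists_fd (K := K) (n := n) (P i j) (v j)
  let U₀ : Submodule K M := ⨆ i, ⨆ j, U i j
  have hU₀ : FiniteDimensional K U₀ := inferInstance
  let ax : Fin n → M →ₗ[K] M := fun i =>
    { toFun := fun u => (FreeAlgebra.ι K i : FA K n) • u
      map_add' := fun a b => smul_add _ a b
      map_smul' := fun c a => by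
        simp only [RingHom.id_apply]
        rw [← algebraMap_smul (FA K n) c a, ← algebraMap_smul (FA K n) c, ← mul_smul, ← mul_smul,
          Algebra.commutes] }
  let W : Submodule K M := (U₀ ⊔ ⨆ i, U₀.map (ax i)) ⊔ Submodule.span K (Set.range v)
  have hsp : FiniteDimensional K (Submodule.span K (Set.range v)) :=
    FiniteDimensional.span_of_finite K (Set.finite_range v)
  have hW : FiniteDimensional K W := inferInstance
  have hvW : ∀ j, v j ∈ W := fun j =>
    Submodule.mem_sup_right (Submodule.subset_span ⟨j, rfl⟩)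
  have hg : ∀ i, ∃ g : M →ₗ[K] W, ∀ u (hu : u ∈ U₀), (g u : M) = ax i u := by
    intro i
    have hmem : ∀ u : U₀, ax i u ∈ W := fun u =>
      Submodule.mem_sup_left (Submodule.mem_sup_right
        (Submodule.mem_iSup_of_mem i (Submodule.mem_map_of_mem u.2)))
    obtain ⟨g, hg⟩ := LinearMap.exists_extend
      (((ax i).domRestrict U₀).codRestrict W hmem)
    refine ⟨g, fun u hu => ?_⟩
    have := LinearMap.congr_fun hg ⟨u, hu⟩
    simp only [LinearMap.comp_apply, Submodule.subtype_apply] at this
    rw [this]
    rfl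
  choose g hg using hg
  let X₁ : Fin n → Module.End K M := fun i => W.subtype ∘ₗ g i
  let X₂ : Fin n → Module.End K W := fun i => g i ∘ₗ W.subtype
  have hX₁ : ∀ i j, FreeAlgebra.lift K X₁ (P i j) (v j) = P i j • v j := by
    intro i j
    apply kU
    intro l u hu
    have : u ∈ U₀ := Submodule.mem_iSup_of_mem i (Submodule.mem_iSup_of_mem j hu)
    exact hg l u this
  have hres : ∀ (f : FA K n) (w : W), FreeAlgebra.lift K X₁ f (w : M) =
      (FreeAlgebra.lift K X₂ f w : W) := fun f w =>
    lift_restrict W.subtype X₁ X₂ (fun _ _ => rfl) f w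
  let w₀ : k → W := fun j => ⟨v j, hvW j⟩
  have hw₀ : ∀ i, ∑ j, FreeAlgebra.lift K X₂ (P i j) (w₀ j) = 0 := by
    intro i
    apply Subtype.ext
    rw [Submodule.coe_sum, Submodule.coe_zero, ← h i]
    refine sum_congr rfl fun j _ => ?_
    rw [← hres, ← hX₁]
  let b := Module.finBasis K W
  let Φ : Module.End K W →ₐ[K] Matrix (Fin (Module.finrank K W)) (Fin (Module.finrank K W)) K :=
    (LinearMap.toMatrixAlgEquiv b).toAlgHom
  refine ⟨Module.finrank K W, fun i => Φ (X₂ i), fun j => b.repr (w₀ j), ?_, fun i => ?_⟩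
  · intro h0
    apply hv
    funext j
    have h1 := congrFun h0 j
    have h2 : b.repr (w₀ j) = 0 := by
      ext t
      exact congrFun h1 t
    have h3 : w₀ j = 0 := (LinearEquiv.map_eq_zero_iff _).1 h2
    exact congrArg Subtype.val h3
  · have hΦ : ∀ f : FA K n, FreeAlgebra.lift K (fun i => Φ (X₂ i)) f =
        Φ (FreeAlgebra.lift K X₂ f) := by
      intro f
      have : FreeAlgebra.lift K (fun i => Φ (X₂ i)) = Φ.comp (FreeAlgebra.lift K X₂) := by
        apply FreeAlgebra.hom_ext
        funext i
        simp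
      rw [this]; rfl
    have key : ∀ j, (FreeAlgebra.lift K (fun i => Φ (X₂ i)) (P i j)).mulVec (b.repr (w₀ j)) =
        b.repr (FreeAlgebra.lift K X₂ (P i j) (w₀ j)) := by
      intro j
      rw [hΦ]
      exact LinearMap.toMatrix_mulVec_repr b b _ _
    rw [sum_congr rfl fun j _ => key j]
    funext t
    rw [Finset.sum_apply]
    have := congrArg (fun z => b.repr z t) (hw₀ i)
    simpa using this

end Rep

variable {K : Type*} [Field K] {n : ℕ} {k : Type*} [Fintype k] [DecidableEq k]

/-- `P(X)` is injective for all tuples `X` of matrices -/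
def NonSing (P : Matrix k k (FA K n)) : Prop :=
  ∀ (N : ℕ) (X : Fin n → Matrix (Fin N) (Fin N) K) (w : k → Fin N → K),
    (∀ i, ∑ j, (FreeAlgebra.lift K X (P i j)).mulVec (w j) = 0) → w = 0

theorem exists_left_inv (P : Matrix k k (FA K n)) (hP : NonSing P) :
    ∃ G : Matrix k k (FA K n), G * P = 1 := by
  classical
  let N' : Submodule (FA K n) (k → FA K n) := Submodule.span _ (Set.range fun i => P i)
  by_cases hN : N' = ⊤
  · have : ∀ j, ∃ g : k → FA K n, ∑ i, g i • P i = Pi.single j 1 := by
      intro j
      have : (Pi.single j 1 : k → FA K n) ∈ N' := by rw [hN]; trivial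
      exact (Submodule.mem_span_range_iff_exists_fun _).1 this
    choose g hg using this
    refine ⟨Matrix.of g, ?_⟩
    ext i j
    have := congrFun (hg i) j
    rw [Finset.sum_apply] at this
    rw [Matrix.mul_apply, Matrix.one_apply]
    simp only [Pi.smul_apply, smul_eq_mul] at this
    simp only [Matrix.of_apply]
    rw [this, Pi.single_apply]
    simp [eq_comm]
  · exfalso
    let v : k → (k → FA K n) ⧸ N' := fun j => Submodule.Quotient.mk (Pi.single j 1)
    have hv : v ≠ 0 := by
      intro h0
      apply hN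
      rw [eq_top_iff]
      intro f _
      have hf : f = ∑ j, f j • (Pi.single j 1 : k → FA K n) := by
        funext i
        simp [Finset.sum_apply, Pi.single_apply]
      rw [hf]
      refine Submodule.sum_mem _ fun j _ => Submodule.smul_mem _ _ ?_
      have := congrFun h0 j
      exact (Submodule.Quotient.mk_eq_zero _).1 this
    have hr : ∀ i, ∑ j, P i j • v j = 0 := by
      intro i
      have h1 : ∑ j, P i j • v j = Submodule.Quotient.mk (P i) := by
        have hf : P i = ∑ j, P i j • (Pi.single j 1 : k → FA K n) := by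
          funext i'
          simp [Finset.sum_apply, Pi.single_apply]
        rw [hf]
        simp only [v, ← Submodule.mkQ_apply, map_sum, map_smul]
        simp [Finset.sum_apply, Pi.single_apply]
      rw [h1]
      exact (Submodule.Quotient.mk_eq_zero _).2 (Submodule.subset_span ⟨i, rfl⟩)
    obtain ⟨N, X, w, hw, hX⟩ := exists_rep (K := K) P v hv hr
    exact hw (hP N X w hX)

end Pool.Agent.Q171.GE
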