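import Pool.Agent.Q171.GE.Count

/-! # Left inverses over `K⟨x⟩ ⊗ M_N(F)` -/

namespace Pool.Agent.Q171.GE

open Finset TensorProduct

set_option linter.unusedSectionVars false

variable {K : Type*} [Field K] {F : Type*} [Field F] [Algebra K F] {n : ℕ}
  {N : Type} [Fintype N] [DecidableEq N]

/-- base change -/
noncomputable def bc (K : Type*) [Field K] (F : Type*) [Field F] [Algebra K F] (n : ℕ) :
    FA K n →ₐ[K] FA F n := FreeAlgebra.lift K fun i => FreeAlgebra.ι F i

@[simp] lemma bc_ι (i : Fin n) : bc K F n (FreeAlgebra.ι K i) = FreeAlgebra.ι F i := by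
  simp [bc]

lemma bc_algebraMap (r : K) :
    bc K F n (algebraMap K _ r) = algebraMap F _ (algebraMap K F r) := by
  rw [AlgHom.commutes, IsScalarTower.algebraMap_apply K F (FA F n)]

lemma eps_bc (f : FA K n) : eps (bc K F n f) = algebraMap K F (eps f) := by
  induction f using FreeAlgebra.induction with
  | grade0 r => rw [bc_algebraMap]; simp
  | grade1 k => simp
  | mul f g hf hg => simp only [map_mul, hf, hg]
  | add f g hf hg => simp only [map_add, hf, hg]

lemma rq_bc (l : Fin n) (f : FA K n) : rq l (bc K F n f) = bc K F n (rq l f) := by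
  induction f using FreeAlgebra.induction with
  | grade0 r => rw [bc_algebraMap]; simp
  | grade1 k =>
    rw [bc_ι, rq_ι, rq_ι]
    split_ifs <;> simp
  | mul f g hf hg =>
    rw [map_mul, rq_mul, rq_mul, map_add, map_mul, map_mul, hf, hg, eps_bc, bc_algebraMap]
  | add f g hf hg => simp only [map_add, hf, hg]

/-- `K⟨x⟩ ⊗ M_N(F) → M_N(F⟨x⟩)` -/
noncomputable def Th (K : Type*) [Field K] (F : Type*) [Field F] [Algebra K F] (n : ℕ)
    (N : Type) [Fintype N] [DecidableEq N] :
    TS K n (Matrix N N F) →ₐ[K] Matrix N N (FA F n) :=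
  Algebra.TensorProduct.lift ((Matrix.scalarAlgHom N K).comp (bc K F n))
    (((Algebra.ofId F (FA F n)).restrictScalars K).mapMatrix) (by
      intro f m
      ext i j
      simp only [AlgHom.comp_apply, Matrix.scalarAlgHom_apply, Matrix.scalar_apply,
        AlgHom.mapMatrix_apply, Matrix.diagonal_mul, Matrix.mul_diagonal, Matrix.map_apply,
        AlgHom.restrictScalars_apply, Algebra.ofId_apply]
      exact (Algebra.commutes _ _).symm)

lemma Th_tmul (f : FA K n) (m : Matrix N N F) (i j : N) :
    Th K F n N (f ⊗ₜ m) i j = bc K F n f * algebraMap F _ (m i j) := by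
  change (Matrix.scalar N (bc K F n f) * m.map (algebraMap F (FA F n))) i j = _
  rw [Matrix.scalar_apply, Matrix.diagonal_mul, Matrix.map_apply]

lemma rq_mul_algebraMap (l : Fin n) (f : FA F n) (c : F) :
    rq l (f * algebraMap F _ c) = rq l f * algebraMap F _ c := by
  rw [rq_mul, rq_algebraMap, mul_zero, zero_add, AlgHom.commutes]
  rfl

lemma rq_Th (l : Fin n) (z : TS K n (Matrix N N F)) (i j : N) :
    rq l (Th K F n N z i j) = Th K F n N (DT l z) i j := by
  induction z using TensorProduct.induction_on with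
  | zero => simp
  | add a b ha hb => simp only [map_add, Matrix.add_apply, ha, hb]
  | tmul f m => rw [Th_tmul, rq_mul_algebraMap, rq_bc, DT_tmul, Th_tmul]

lemma eps_Th (z : TS K n (Matrix N N F)) (i j : N) :
    eps (Th K F n N z i j) = eT z i j := by
  induction z using TensorProduct.induction_on with
  | zero => simp
  | add a b ha hb => simp only [map_add, Matrix.add_apply, ha, hb]
  | tmul f m =>
    rw [Th_tmul, eT_tmul, map_mul, eps_bc, AlgHom.commutes, Algebra.algebraMap_eq_smul_one (A := Matrix N N F),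
      smul_mul_assoc, one_mul, Matrix.smul_apply, Algebra.smul_def]
    rfl

lemma Th_injective : Function.Injective (Th K F n N) := by
  rw [injective_iff_map_eq_zero]
  intro z hz
  have key : ∀ w : List (Fin n), Th K F n N (DTw w z) = 0 := by
    intro w
    induction w with
    | nil => exact hz
    | cons l w ih =>
      ext i j
      rw [DTw_cons, ← rq_Th, ih]
      simp
  apply eq_zero_of_cf
  intro w
  ext i j
  rw [cf, ← eps_Th, key w]
  simp

lemma Th_surjective : Function.Surjective (Th K F n N) := by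
  -- scalar matrices
  have h1 : ∀ f : FA F n, ∃ z, Th K F n N z = Matrix.scalar N f := by
    intro f
    induction f using FreeAlgebra.induction with
    | grade0 r =>
      refine ⟨1 ⊗ₜ Matrix.scalar N r, ?_⟩
      ext i j
      rw [Th_tmul, map_one, one_mul, Matrix.scalar_apply, Matrix.scalar_apply,
        Matrix.diagonal_apply, Matrix.diagonal_apply]
      split_ifs <;> simp
    | grade1 k =>
      refine ⟨xT k, ?_⟩
      ext i j
      rw [xT, Th_tmul, bc_ι, Matrix.scalar_apply, Matrix.diagonal_apply, Matrix.one_apply]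
      split_ifs <;> simp
    | mul f g hf hg =>
      obtain ⟨a, ha⟩ := hf
      obtain ⟨b, hb⟩ := hg
      exact ⟨a * b, by rw [map_mul, ha, hb, map_mul]⟩
    | add f g hf hg =>
      obtain ⟨a, ha⟩ := hf
      obtain ⟨b, hb⟩ := hg
      exact ⟨a + b, by rw [map_add, ha, hb, map_add]⟩
  intro M
  choose z hz using h1
  refine ⟨∑ i, ∑ j, z (M i j) * (1 ⊗ₜ Matrix.single i j 1), ?_⟩
  rw [map_sum]
  conv_rhs => rw [Matrix.matrix_eq_sum_single M]
  refine sum_congr rfl fun i _ => ?_
  rw [map_sum]
  refine sum_congr rfl fun j _ => ?_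
  rw [map_mul, hz]
  ext a b
  rw [Matrix.scalar_apply, Matrix.diagonal_mul, Th_tmul, map_one, one_mul, Matrix.single_apply,
    Matrix.single_apply]
  split_ifs <;> simp

variable {p : Type*} [Fintype p] [DecidableEq p]

/-- `P` is nonsingular under all homomorphisms to matrix rings over `F` -/
def NonSingT {K : Type*} [Field K] (F : Type*) [Field F] [Algebra K F] {n : ℕ} {S : Type*}
    [Ring S] [Algebra K S] {p : Type*} [Fintype p] (P : Matrix p p (TS K n S)) : Prop :=
  ∀ (q : Type) [Fintype q] [DecidableEq q] (χ : TS K n S →ₐ[K] Matrix q q F) (w : p → q → F),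
    (∀ i, ∑ j, (χ (P i j)).mulVec (w j) = 0) → w = 0

theorem exists_left_inv_TM (P : Matrix p p (TS K n (Matrix N N F)))
    (hP : NonSingT F P) :
    ∃ G : Matrix p p (TS K n (Matrix N N F)), G * P = 1 := by
  classical
  let P' : Matrix (p × N) (p × N) (FA F n) := Matrix.comp p p N N (FA F n)
    (P.map (Th K F n N))
  have hns : NonSing P' := by
    intro ℓ X w hw
    let χ : TS K n (Matrix N N F) →ₐ[K] Matrix (N × Fin ℓ) (N × Fin ℓ) F :=
      ((Matrix.compAlgEquiv N (Fin ℓ) F K).toAlgHom.comp
        ((FreeAlgebra.lift F X).restrictScalars K).mapMatrix).comp (Th K F n N)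
    have hχ : ∀ z a s c t, χ z (a, s) (c, t) = FreeAlgebra.lift F X (Th K F n N z a c) s t :=
      fun _ _ _ _ _ => rfl
    have := hP (N × Fin ℓ) χ (fun j cs => w (j, cs.1) cs.2) (by
      intro i
      funext ⟨a, s⟩
      have e := congrFun (hw (i, a)) s
      rw [Finset.sum_apply, Fintype.sum_prod_type] at e
      rw [Finset.sum_apply]
      refine Eq.trans ?_ e
      refine sum_congr rfl fun j _ => ?_
      simp only [Matrix.mulVec, dotProduct, Fintype.sum_prod_type, hχ]
      rfl)
    funext ⟨j, c⟩
    funext t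
    exact congrFun (congrFun this j) (c, t)
  obtain ⟨G', hG'⟩ := exists_left_inv P' hns
  choose G hG using fun i j => Th_surjective (K := K) (F := F) (n := n) (N := N)
    (Matrix.of fun a c => G' (i, a) (j, c))
  refine ⟨Matrix.of G, ?_⟩
  ext i j
  apply Th_injective
  ext a c
  rw [Matrix.mul_apply, map_sum, Matrix.sum_apply]
  have e := congrFun (congrFun hG' (i, a)) (j, c)
  rw [Matrix.mul_apply, Fintype.sum_prod_type] at e
  have e2 : (1 : Matrix (p × N) (p × N) (FA F n)) (i, a) (j, c) =
      Th K F n N ((1 : Matrix p p (TS K n (Matrix N N F))) i j) a c := by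
    rw [Matrix.one_apply, Matrix.one_apply]
    by_cases h : i = j
    · subst h
      rw [if_pos rfl, map_one, Matrix.one_apply]
      simp
    · rw [if_neg h, if_neg (by simp [h]), map_zero]
      rfl
  rw [← e2, ← e]
  refine sum_congr rfl fun k _ => ?_
  rw [map_mul, Matrix.mul_apply, Matrix.of_apply, hG]
  rfl

end Pool.Agent.Q171.GE
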