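import Pool.Agent.Q171.GE.Pencil

/-! # Good endomorphisms of free algebras are automorphisms -/

namespace Pool.Agent.Q171.GE

open Finset MulOpposite TensorProduct

set_option linter.unusedSectionVars false

universe u

variable {K : Type u} [Field K] {n : ℕ}

lemma pencil_sub_one {r : ℕ} (A : Fin n → Matrix (Fin r) (Fin r) K) (c a : Fin r) :
    pencil A c a - (1 : Matrix (Fin r) (Fin r) (FA K n)) c a ∈ aug K n ^ 1 := by
  rw [pow_one, mem_aug, pencil, Matrix.of_apply, Matrix.one_apply, sub_sub_cancel_left, map_neg,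
    map_sum]
  simp

/-- `Φ ∘ ψ ≡ Φ` -/
lemma Dv_comp {q : Type} [Fintype q] [DecidableEq q] (Φ : FA K n →ₐ[K] Matrix q q (Polynomial K))
    (hΦ : ∀ i, Dv 1 (Φ (FreeAlgebra.ι K i))) {m : ℕ} {ψ : FA K n →ₐ[K] FA K n}
    (hψ : ∀ i, ψ (FreeAlgebra.ι K i) - FreeAlgebra.ι K i ∈ aug K n ^ m) (f : FA K n) :
    Dv m (Φ (ψ f) - Φ f) := by
  induction f using FreeAlgebra.induction with
  | grade0 r =>
    rw [AlgHom.commutes, sub_self]
    exact fun a b => dvd_zero _
  | grade1 i =>
    rw [← map_sub]
    exact Dv_aug Φ hΦ m _ (hψ i)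
  | mul f g hf hg =>
    have : Φ (ψ (f * g)) - Φ (f * g) = Φ (ψ f) * (Φ (ψ g) - Φ g) + (Φ (ψ f) - Φ f) * Φ g := by
      rw [map_mul, map_mul, map_mul]
      noncomm_ring
    rw [this]
    exact (hg.any_mul _).add (hf.mul_any _)
  | add f g hf hg =>
    have : Φ (ψ (f + g)) - Φ (f + g) = (Φ (ψ f) - Φ f) + (Φ (ψ g) - Φ g) := by
      rw [map_add, map_add, map_add]
      abel
    rw [this]
    exact hf.add hg

lemma eps_of_aug {ψ : FA K n →ₐ[K] FA K n} {m : ℕ} (hm : 1 ≤ m)
    (hψ : ∀ i, ψ (FreeAlgebra.ι K i) - FreeAlgebra.ι K i ∈ aug K n ^ m) (f : FA K n) :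
    eps (ψ f) = eps f := by
  have h0 : ∀ m : ℕ, 1 ≤ m → ∀ g ∈ aug K n ^ m, eps g = 0 := by
    intro m hm
    induction m, hm using Nat.le_induction with
    | base => intro g hg; rw [pow_one] at hg; exact hg
    | succ m _ ih =>
      intro g hg
      rw [pow_succ] at hg
      refine Submodule.mul_induction_on hg ?_ ?_
      · intro a ha b _
        rw [map_mul, ih a ha, zero_mul]
      · intro a b ha hb
        rw [map_add, ha, hb, add_zero]
  have : (eps.comp ψ : FA K n →ₐ[K] K) = eps := by
    apply FreeAlgebra.hom_ext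
    funext i
    have := h0 m hm _ (hψ i)
    rw [map_sub, eps_ι, sub_zero] at this
    simpa using this
  exact congrArg (fun h => h f) this

/-- the pencil is nonsingular on all finite dimensional representations -/
theorem pencil_nonSing {φ : FA K n →ₐ[K] FA K n} (hG : Good φ)
    (hφ : ∀ k, eps (φ (FreeAlgebra.ι K k)) = 0) {r : ℕ} (A : Fin n → Matrix (Fin r) (Fin r) K)
    {Ω : Matrix (Fin r) (Fin r) (FA K n)} (hΩ : Ω * (pencil A).map φ = 1) :
    NonSing (pencil A) := by
  intro N Z w hw
  let Φ : FA K n →ₐ[K] Matrix (Fin N) (Fin N) (Polynomial K) :=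
    FreeAlgebra.lift K fun l => (Polynomial.X : Polynomial K) • (Z l).map Polynomial.C
  have hΦι : ∀ l, Φ (FreeAlgebra.ι K l) = (Polynomial.X : Polynomial K) • (Z l).map Polynomial.C :=
    fun l => by rw [FreeAlgebra.lift_ι_apply]
  have hΦ1 : ∀ l, Dv 1 (Φ (FreeAlgebra.ι K l)) := by
    intro l a b
    rw [hΦι, pow_one]
    change Polynomial.X ∣ Polynomial.X * Polynomial.C (Z l a b)
    exact dvd_mul_right _ _
  let ev1 : Polynomial K →ₐ[K] K := Polynomial.aeval (1 : K)
  have hev : ev1.mapMatrix.comp Φ = FreeAlgebra.lift K Z := by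
    apply FreeAlgebra.hom_ext
    funext l
    simp only [Function.comp_apply, AlgHom.comp_apply, FreeAlgebra.lift_ι_apply, hΦι]
    ext a b
    simp [ev1]
  set V : Polynomial K := Dt Φ (pencil A) with hV
  have hV0 : Polynomial.X ^ 1 ∣ V - 1 := by
    have : V - 1 ∈ Ideal.span {(Polynomial.X : Polynomial K) ^ 1} := by
      rw [hV, ← Dt_one Φ (p := Fin r)]
      apply Dt_congr
      intro c a i j
      rw [Ideal.mem_span_singleton, ← map_sub]
      exact Dv_aug Φ hΦ1 1 _ (pencil_sub_one A c a) i j
    rwa [Ideal.mem_span_singleton] at this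
  have key : ∀ m : ℕ, 1 ≤ m → Polynomial.X ^ m ∣ V - 1 := by
    intro m hm
    obtain ⟨ψ, θ, hφ', hψ⟩ := hG m hm
    let χ : FA K n →ₐ[K] Matrix (Fin N) (Fin N) (Polynomial K) :=
      Φ.comp (θ.symm : FA K n →ₐ[K] FA K n)
    have hχθ : ∀ f, χ (θ f) = Φ f := fun f => by simp [χ]
    -- the augmentation is preserved
    have he : ∀ f, eps (θ f) = eps f := by
      intro f
      have h1 : (eps.comp (θ : FA K n →ₐ[K] FA K n) : FA K n →ₐ[K] K) = eps := by
        apply FreeAlgebra.hom_ext
        funext i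
        have h2 := hφ i
        rw [hφ', eps_of_aug hm hψ] at h2
        simpa using h2
      exact congrArg (fun h => h f) h1
    have hχ1 : ∀ l, Dv 1 (χ (FreeAlgebra.ι K l)) := by
      intro l
      have h1 : θ.symm (FreeAlgebra.ι K l) ∈ aug K n ^ 1 := by
        rw [pow_one, mem_aug, ← he, AlgEquiv.apply_symm_apply, eps_ι]
      exact Dv_aug Φ hΦ1 1 _ h1
    have h1 : Polynomial.X ^ m ∣ Dt χ ((pencil A).map φ) - V := by
      have : Dt χ ((pencil A).map φ) - V ∈ Ideal.span {(Polynomial.X : Polynomial K) ^ m} := by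
        apply Dt_congr
        intro c a i j
        rw [Ideal.mem_span_singleton, Matrix.map_apply, hφ', ← hχθ (pencil A c a)]
        exact Dv_comp χ hχ1 hψ _ i j
      rwa [Ideal.mem_span_singleton] at this
    obtain ⟨c, _, hc⟩ := Polynomial.isUnit_iff.1 (Dt_isUnit χ hΩ)
    rw [← hc] at h1
    have h2 : c = 1 := by
      have h3 := Polynomial.X_pow_dvd_iff.1 h1 0 (by omega)
      have h4 := Polynomial.X_pow_dvd_iff.1 hV0 0 (by omega)
      rw [Polynomial.coeff_sub, Polynomial.coeff_C_zero, sub_eq_zero] at h3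
      rw [Polynomial.coeff_sub, Polynomial.coeff_one_zero, sub_eq_zero] at h4
      rw [h3, h4]
    rw [h2, map_one] at h1
    have : V - 1 = -(1 - V) := by ring
    rw [this]
    exact (dvd_neg).2 h1
  have hV1 : V = 1 := by
    rw [← sub_eq_zero]
    ext d
    rw [Polynomial.coeff_zero]
    exact Polynomial.X_pow_dvd_iff.1 (key (d + 1) (by omega)) d (by omega)
  have hD : Dt (FreeAlgebra.lift K Z) (pencil A) ≠ 0 := by
    rw [← hev, ← Dt_map, ← hV, hV1, map_one]
    exact one_ne_zero
  exact eq_zero_of_Dt _ _ hD w hw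

/-- the case of an endomorphism which preserves the augmentation -/
theorem bijective_of_good_aux {φ : FA K n →ₐ[K] FA K n} (hG : Good φ)
    (hφ : ∀ k, eps (φ (FreeAlgebra.ι K k)) = 0) : Function.Bijective φ := by
  classical
  -- the Jacobian matrix
  obtain ⟨G, hGJ⟩ := exists_left_inv_bimod (jac φ) fun F _ _ => nonSingT_of_good hG F
  obtain ⟨r0, _, h2⟩ := exists_inv_eT (jac φ) (nonSingT_of_good hG K)
  let P : Matrix (Fin n) (Fin n) (FA K n) := Matrix.of fun k i => rq i (φ (FreeAlgebra.ι K k))
  have hP : NonSing P := by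
    intro N X w hw
    refine nonSingT_of_good hG K (Fin N) ((FreeAlgebra.lift K X).comp e1) w fun i => ?_
    rw [← hw i]
    refine sum_congr rfl fun j _ => ?_
    rw [AlgHom.comp_apply]
    have : e1 (jac φ i j) = P i j := by
      rw [jac, Matrix.of_apply, e1_Jd]; rfl
    rw [this]
  obtain ⟨R, hRP⟩ := exists_left_inv P hP
  have hPR := mul_eq_one_comm_FA hRP
  obtain ⟨W, hWf, hWι, hWT⟩ := exists_stable φ hPR hGJ
  obtain ⟨r, A, f, hf, hrow, Ω, hΩ⟩ := exists_pencil φ hφ hPR hRP h2 W hWT
  obtain ⟨Ω', hΩ'⟩ := exists_left_inv _ (pencil_nonSing hG hφ A hΩ)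
  have hΩ2 := mul_eq_one_comm_FA hΩ'
  constructor
  · -- injectivity
    have he : ∀ g, eps (φ g) = eps g := by
      intro g
      have : (eps.comp φ : FA K n →ₐ[K] K) = eps := by
        apply FreeAlgebra.hom_ext
        funext i
        simp [hφ]
      exact congrArg (fun h => h g) this
    have hT : ∀ l g, Tq R l (φ g) = φ (rq l g) := by
      intro l g
      induction g using FreeAlgebra.induction with
      | grade0 r => rw [AlgHom.commutes, Tq_algebraMap, rq_algebraMap, map_zero]
      | grade1 k =>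
        rw [Tq_b (fun k => φ (FreeAlgebra.ι K k)) hPR, rq_ι]
        split_ifs <;> simp
      | mul g h hg hh =>
        rw [map_mul, Tq_mul, hg, hh, he, rq_mul, map_add, map_mul, map_mul, AlgHom.commutes,
          ← Algebra.commutes, ← Algebra.smul_def]
      | add g h hg hh => rw [map_add, map_add, hg, hh, map_add, map_add]
    rw [injective_iff_map_eq_zero]
    intro g hg
    apply eq_zero_of_rqw
    intro w
    have key : ∀ w : List (Fin n), φ (rqw w g) = 0 := by
      intro w
      induction w with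
      | nil => exact hg
      | cons l w ih =>
        change φ (rq l (rqw w g)) = 0
        rw [← hT, ih, map_zero]
    rw [← he, key, map_zero]
  · -- surjectivity
    have hfr : ∀ a, f a ∈ φ.range := by
      intro a
      have h1 : f a = φ (∑ c, eps (f c) • Ω' c a) := by
        have h3 : ∀ c, φ (eps (f c) • Ω' c a) =
            (∑ d, f d * φ (pencil A d c)) * φ (Ω' c a) := by
          intro c
          rw [hrow, map_smul, Algebra.smul_def]
        rw [map_sum, sum_congr rfl fun c _ => h3 c]
        simp only [sum_mul]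
        rw [sum_comm]
        have h4 : ∀ d, ∑ c, f d * φ (pencil A d c) * φ (Ω' c a) =
            f d * φ ((1 : Matrix (Fin r) (Fin r) (FA K n)) d a) := by
          intro d
          rw [← hΩ2, Matrix.mul_apply, map_sum, mul_sum]
          refine sum_congr rfl fun c _ => ?_
          rw [map_mul, mul_assoc]
        rw [sum_congr rfl fun d _ => h4 d]
        simp [Matrix.one_apply]
      rw [h1]
      exact ⟨_, rfl⟩
    have hι : ∀ j, FreeAlgebra.ι K j ∈ φ.range := by
      intro j
      have h1 := hf _ (hWι j)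
      have h2 : Submodule.span K (Set.range f) ≤ Subalgebra.toSubmodule φ.range := by
        rw [Submodule.span_le]
        rintro _ ⟨a, rfl⟩
        exact hfr a
      exact h2 h1
    intro g
    change g ∈ φ.range
    induction g using FreeAlgebra.induction with
    | grade0 r => exact φ.range.algebraMap_mem r
    | grade1 k => exact hι k
    | mul g h hg hh => exact φ.range.mul_mem hg hh
    | add g h hg hh => exact φ.range.add_mem hg hh

/-- **Every good endomorphism of a free associative algebra is an automorphism.** -/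
theorem bijective_of_good {φ : FA K n →ₐ[K] FA K n} (hG : Good φ) : Function.Bijective φ := by
  -- translate
  let c : Fin n → K := fun k => eps (φ (FreeAlgebra.ι K k))
  let τ : FA K n →ₐ[K] FA K n :=
    FreeAlgebra.lift K fun k => FreeAlgebra.ι K k - algebraMap K _ (c k)
  let τ' : FA K n →ₐ[K] FA K n :=
    FreeAlgebra.lift K fun k => FreeAlgebra.ι K k + algebraMap K _ (c k)
  have h1 : τ.comp τ' = AlgHom.id K _ := by
    apply FreeAlgebra.hom_ext
    funext k
    simp [τ, τ']
  have h2 : τ'.comp τ = AlgHom.id K _ := by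
    apply FreeAlgebra.hom_ext
    funext k
    simp [τ, τ']
  let te : FA K n ≃ₐ[K] FA K n := AlgEquiv.ofAlgHom τ τ' h1 h2
  have hG' : Good (φ.comp τ) := by
    intro m hm
    obtain ⟨ψ, θ, hφ', hψ⟩ := hG m hm
    refine ⟨ψ, te.trans θ, fun f => ?_, hψ⟩
    rw [AlgHom.comp_apply, hφ']
    rfl
  have h3 := bijective_of_good_aux hG' (by
    intro k
    simp [τ, c])
  have h4 : (φ : FA K n → FA K n) = (φ.comp τ) ∘ te.symm := by
    funext f
    have : τ (te.symm f) = f := te.apply_symm_apply f
    rw [Function.comp_apply, AlgHom.comp_apply, this]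
  rw [h4]
  exact h3.comp te.symm.bijective

end Pool.Agent.Q171.GE
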