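import Pool.Agent.Q171.GE.Good

/-! # The orbits under the quotients by the images of the variables -/

namespace Pool.Agent.Q171.GE

open Finset MulOpposite TensorProduct

set_option linter.unusedSectionVars false

universe u

variable {K : Type u} [Field K] {n : ℕ}

/-! ## The one-sided quotients by the images of the variables -/

/-- `id ⊗ ε` -/
noncomputable def e1 : TT K n →ₐ[K] FA K n :=
  Algebra.TensorProduct.lift (AlgHom.id K (FA K n))
    ((Algebra.ofId K (FA K n)).comp ((eps (K := K) (n := n)).fromOpposite fun _ _ => Commute.all _ _))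
    (by
      intro x y
      change Commute x (algebraMap K (FA K n) (eps (unop y)))
      exact Algebra.commute_algebraMap_right _ _)

lemma e1_tmul (f g : FA K n) : e1 (f ⊗ₜ[K] op g : TT K n) = f * algebraMap K _ (eps g) := rfl

lemma e1_lT (f : FA K n) : e1 (lT f : TT K n) = f := by
  rw [lT_apply, ← op_one, e1_tmul, map_one, map_one, mul_one]

lemma e1_rT (f : FA K n) : e1 (rT f : TT K n) = algebraMap K _ (eps f) := by
  rw [rT_apply, e1_tmul, one_mul]

lemma e1_Jd (i : Fin n) (f : FA K n) : e1 (Jd i f) = rq i f := by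
  induction f using FreeAlgebra.induction with
  | grade0 r => rw [Jd_algebraMap, map_zero, rq_algebraMap]
  | grade1 k =>
    rw [Jd_ι, rq_ι]
    split_ifs <;> simp
  | mul f g hf hg =>
    rw [Jd_mul, map_add, map_mul, map_mul, e1_lT, e1_rT, hf, hg, rq_mul, Algebra.commutes]
  | add f g hf hg => rw [map_add, map_add, map_add, hf, hg]

variable (b : Fin n → FA K n)

/-- quotient by `b_l` from the right -/
noncomputable def Tq (R : Matrix (Fin n) (Fin n) (FA K n)) (l : Fin n) : FA K n →ₗ[K] FA K n :=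
  ∑ i, (LinearMap.mulRight K (R i l)) ∘ₗ rq i

lemma Tq_apply (R : Matrix (Fin n) (Fin n) (FA K n)) (l : Fin n) (f : FA K n) :
    Tq R l f = ∑ i, rq i f * R i l := by
  simp [Tq]

/-- quotient by `b_l` from the left -/
noncomputable def Tl (r0 : Matrix (Fin n) (Fin n) (FA K n)ᵐᵒᵖ) (l : Fin n) :
    FA K n →ₗ[K] FA K n :=
  (opLinearEquiv K).symm.toLinearMap ∘ₗ
    ∑ i, (LinearMap.mulRight K (r0 i l)) ∘ₗ eT.toLinearMap ∘ₗ Jd i

lemma Tl_apply (r0 : Matrix (Fin n) (Fin n) (FA K n)ᵐᵒᵖ) (l : Fin n) (f : FA K n) :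
    Tl r0 l f = unop (∑ i, eT (Jd i f) * r0 i l) := by
  simp [Tl]

lemma Tl_mul (r0 : Matrix (Fin n) (Fin n) (FA K n)ᵐᵒᵖ) (l : Fin n) (f g : FA K n) :
    Tl r0 l (f * g) = Tl r0 l f * g + eps f • Tl r0 l g := by
  rw [Tl_apply, Tl_apply, Tl_apply]
  have h1 : ∀ i, eT (Jd i (f * g)) * r0 i l = (op g) * (eT (Jd i f) * r0 i l) +
      eps f • (eT (Jd i g) * r0 i l) := by
    intro i
    rw [Jd_mul, map_add, map_mul, map_mul]
    have h2 : eT (lT f : TT K n) = algebraMap K _ (eps f) := by
      rw [lT_apply, eT_tmul, mul_one]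
    have h3 : eT (rT g : TT K n) = op g := by rw [rT, eT_iT]
    rw [h2, h3, add_mul, mul_assoc, mul_assoc, ← Algebra.smul_def, add_comm]
  rw [sum_congr rfl fun i _ => h1 i, sum_add_distrib, ← mul_sum, ← smul_sum, unop_add, unop_mul,
    unop_op, unop_smul]

lemma Tl_algebraMap (r0 : Matrix (Fin n) (Fin n) (FA K n)ᵐᵒᵖ) (l : Fin n) (r : K) :
    Tl r0 l (algebraMap K _ r) = 0 := by
  rw [Tl_apply]
  simp [Jd_algebraMap]

section

variable {R : Matrix (Fin n) (Fin n) (FA K n)}

lemma Tq_mul (l : Fin n) (f g : FA K n) :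
    Tq R l (f * g) = f * Tq R l g + eps g • Tq R l f := by
  rw [Tq_apply, Tq_apply, Tq_apply, mul_sum, smul_sum, ← sum_add_distrib]
  refine sum_congr rfl fun i _ => ?_
  have h : rq i f * algebraMap K _ (eps g) = eps g • rq i f := by
    rw [← Algebra.commutes, Algebra.smul_def]
  rw [rq_mul, h, add_mul, mul_assoc, smul_mul_assoc]

lemma Tq_algebraMap (l : Fin n) (r : K) : Tq R l (algebraMap K _ r) = 0 := by
  rw [Tq_apply]; simp

lemma Tq_one (l : Fin n) : Tq R l 1 = 0 := by
  have := Tq_algebraMap (R := R) l 1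
  rwa [map_one] at this

lemma Tq_b (hPR : (Matrix.of fun k i => rq i (b k)) * R = 1) (k l : Fin n) :
    Tq R l (b k) = if k = l then 1 else 0 := by
  have := congrFun (congrFun hPR k) l
  rw [Matrix.mul_apply, Matrix.one_apply] at this
  rw [Tq_apply]
  exact this

lemma Tq_sum (hb : ∀ k, eps (b k) = 0) (hRP : R * (Matrix.of fun k i => rq i (b k)) = 1)
    (f : FA K n) : f = algebraMap K _ (eps f) + ∑ l, Tq R l f * b l := by
  conv_lhs => rw [rq_sum f]
  congr 1
  have h1 : ∀ i, FreeAlgebra.ι K i = ∑ l, R i l * b l := by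
    intro i
    have h2 : ∀ l, b l = ∑ j, rq j (b l) * FreeAlgebra.ι K j := by
      intro l
      conv_lhs => rw [rq_sum (b l), hb, map_zero, zero_add]
    calc FreeAlgebra.ι K i = ∑ j, (1 : Matrix (Fin n) (Fin n) (FA K n)) i j *
          FreeAlgebra.ι K j := by
          simp [Matrix.one_apply]
      _ = ∑ j, (∑ l, R i l * rq j (b l)) * FreeAlgebra.ι K j := by
          refine sum_congr rfl fun j _ => ?_
          rw [← hRP, Matrix.mul_apply]; rfl
      _ = ∑ l, R i l * ∑ j, rq j (b l) * FreeAlgebra.ι K j := by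
          simp only [sum_mul, mul_sum]
          rw [sum_comm]
          refine sum_congr rfl fun l _ => sum_congr rfl fun j _ => ?_
          rw [mul_assoc]
      _ = _ := by
          refine sum_congr rfl fun l _ => ?_
          rw [← h2]
  simp only [Tq_apply, sum_mul]
  rw [sum_comm]
  refine sum_congr rfl fun i _ => ?_
  conv_lhs => rw [h1 i, mul_sum]
  refine sum_congr rfl fun l _ => ?_
  rw [mul_assoc]

/-! ## Finite dimensional orbits -/

/-- `id ⊗ S` -/
noncomputable def idT (S : FA K n →ₗ[K] FA K n) : TT K n →ₗ[K] TT K n :=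
  LinearMap.lTensor (FA K n)
    ((opLinearEquiv K).toLinearMap ∘ₗ S ∘ₗ (opLinearEquiv K).symm.toLinearMap)

lemma idT_tmul (S : FA K n →ₗ[K] FA K n) (f g : FA K n) :
    idT S (f ⊗ₜ[K] op g) = f ⊗ₜ op (S g) := rfl

lemma idT_id : idT (LinearMap.id : FA K n →ₗ[K] FA K n) = LinearMap.id := by
  refine TensorProduct.ext' fun f g => ?_
  obtain ⟨g, rfl⟩ := op_surjective g
  rfl

lemma idT_comp (S S' : FA K n →ₗ[K] FA K n) (z : TT K n) :
    idT (S ∘ₗ S') z = idT S (idT S' z) := by
  induction z using TensorProduct.induction_on with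
  | zero => simp
  | add a b ha hb => simp only [map_add, ha, hb]
  | tmul f g =>
    obtain ⟨g, rfl⟩ := op_surjective g
    rfl

lemma idT_mul_lT (S : FA K n →ₗ[K] FA K n) (z : TT K n) (f : FA K n) :
    idT S (z * lT f) = idT S z * lT f := by
  induction z using TensorProduct.induction_on with
  | zero => simp
  | add a b ha hb => simp only [map_add, add_mul, ha, hb]
  | tmul u v =>
    obtain ⟨v, rfl⟩ := op_surjective v
    rw [lT_apply, Algebra.TensorProduct.tmul_mul_tmul, idT_tmul, mul_one,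
      Algebra.TensorProduct.tmul_mul_tmul, mul_one, idT_tmul]

lemma idT_mul_rT (hPR : (Matrix.of fun k i => rq i (b k)) * R = 1) (z : TT K n) (i l : Fin n) :
    idT (Tq R l) (z * rT (b i)) = (if i = l then lT (e1 z) else 0) +
      idT (Tq R l) z * rT (b i) := by
  induction z using TensorProduct.induction_on with
  | zero => simp
  | add a b ha hb =>
    simp only [map_add, add_mul, ha, hb]
    split_ifs
    · abel
    · abel
  | tmul u v =>
    obtain ⟨v, rfl⟩ := op_surjective v
    rw [rT_apply, Algebra.TensorProduct.tmul_mul_tmul, mul_one, ← op_mul, idT_tmul, Tq_mul,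
      Tq_b b hPR, idT_tmul, Algebra.TensorProduct.tmul_mul_tmul, mul_one, ← op_mul, e1_tmul,
      op_add, tmul_add, add_comm]
    congr 1
    split_ifs
    · rw [lT_apply, op_smul, op_one, ← TensorProduct.smul_tmul, ← Algebra.commutes,
        Algebra.smul_def]
    · rw [smul_zero, op_zero, tmul_zero]

/-- the multiplication -/
noncomputable def mu : TT K n →ₗ[K] FA K n :=
  (LinearMap.mul' K (FA K n)) ∘ₗ (LinearMap.lTensor (FA K n) (opLinearEquiv K).symm.toLinearMap)

lemma mu_tmul (f g : FA K n) : mu (f ⊗ₜ[K] op g : TT K n) = f * g := rfl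

lemma mu_dl (z : TT K n) (f : FA K n) : mu (z * dl f) = 0 := by
  induction z using TensorProduct.induction_on with
  | zero => simp
  | add a b ha hb => rw [add_mul, map_add, ha, hb, add_zero]
  | tmul u v =>
    obtain ⟨v, rfl⟩ := op_surjective v
    rw [dl, mul_sub, map_sub, lT_apply, rT_apply, Algebra.TensorProduct.tmul_mul_tmul,
      Algebra.TensorProduct.tmul_mul_tmul, mul_one, mul_one, ← op_mul, mu_tmul, mu_tmul,
      mul_assoc, sub_self]

lemma mu_lT (f : FA K n) : mu (lT f : TT K n) = f := by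
  rw [lT_apply, ← op_one, mu_tmul, mul_one]

lemma mu_rT (f : FA K n) : mu (rT f : TT K n) = f := by
  rw [rT_apply, mu_tmul, one_mul]

lemma orbit_step (hPR : (Matrix.of fun k i => rq i (b k)) * R = 1) {f : FA K n}
    {z : Fin n → TT K n} (h : dl f = ∑ i, z i * dl (b i)) (l : Fin n) :
    Tq R l f = e1 (z l) ∧ dl (Tq R l f) = ∑ i, idT (Tq R l) (z i) * dl (b i) := by
  have h1 : idT (Tq R l) (dl f) = -rT (Tq R l f) := by
    rw [dl, map_sub, lT_apply, ← op_one, idT_tmul, Tq_one, op_zero, tmul_zero, zero_sub,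
      rT_apply, idT_tmul, rT_apply]
  have h2 : ∀ i, idT (Tq R l) (z i * dl (b i)) = idT (Tq R l) (z i) * dl (b i) -
      if i = l then lT (e1 (z i)) else 0 := by
    intro i
    rw [dl, mul_sub, map_sub, idT_mul_lT, idT_mul_rT b hPR, mul_sub]
    abel
  have h3 : -rT (Tq R l f) = (∑ i, idT (Tq R l) (z i) * dl (b i)) - lT (e1 (z l)) := by
    rw [← h1, h, map_sum, sum_congr rfl fun i _ => h2 i, sum_sub_distrib]
    congr 1
    simp
  have h4 : lT (e1 (z l)) - rT (Tq R l f) = ∑ i, idT (Tq R l) (z i) * dl (b i) := by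
    rw [sub_eq_add_neg, h3]; abel
  have h5 : Tq R l f = e1 (z l) := by
    have := congrArg mu h4
    rw [map_sub, mu_lT, mu_rT, map_sum] at this
    simp only [mu_dl, sum_const_zero] at this
    exact (sub_eq_zero.1 this).symm
  refine ⟨h5, ?_⟩
  rw [← h4, ← h5]
  rfl

/-- iterated quotients -/
noncomputable def Tw (R : Matrix (Fin n) (Fin n) (FA K n)) : List (Fin n) → FA K n →ₗ[K] FA K n
  | [] => LinearMap.id
  | l :: u => Tq R l ∘ₗ Tw R u

lemma exists_fd_e1 (z : TT K n) : ∃ U : Submodule K (FA K n), FiniteDimensional K U ∧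
    ∀ S : FA K n →ₗ[K] FA K n, e1 (idT S z) ∈ U := by
  induction z using TensorProduct.induction_on with
  | zero => exact ⟨⊥, inferInstance, fun S => by simp⟩
  | add a b ha hb =>
    obtain ⟨U, hU, h1⟩ := ha
    obtain ⟨V, hV, h2⟩ := hb
    refine ⟨U ⊔ V, inferInstance, fun S => ?_⟩
    rw [map_add, map_add]
    exact add_mem (Submodule.mem_sup_left (h1 S)) (Submodule.mem_sup_right (h2 S))
  | tmul f g =>
    obtain ⟨g, rfl⟩ := op_surjective g
    refine ⟨Submodule.span K {f}, inferInstance, fun S => ?_⟩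
    rw [idT_tmul, e1_tmul, ← Algebra.commutes, ← Algebra.smul_def]
    exact Submodule.smul_mem _ _ (Submodule.mem_span_singleton_self f)

/-- the variables lie in a finite dimensional space which is stable under the quotients -/
theorem exists_stable (φ : FA K n →ₐ[K] FA K n)
    (hPR : (Matrix.of fun k i => rq i (φ (FreeAlgebra.ι K k))) * R = 1)
    {G : Matrix (Fin n) (Fin n) (TT K n)} (hG : G * jac φ = 1) :
    ∃ W : Submodule K (FA K n), FiniteDimensional K W ∧ (∀ j, FreeAlgebra.ι K j ∈ W) ∧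
      ∀ l, ∀ f ∈ W, Tq R l f ∈ W := by
  have h1 : ∀ j, dl (FreeAlgebra.ι K j) = ∑ i, G j i * dl (φ (FreeAlgebra.ι K i)) := by
    intro j
    have h2 : ∀ i, dl (φ (FreeAlgebra.ι K i)) = ∑ k, jac φ i k * dl (FreeAlgebra.ι K k) :=
      fun i => dl_sum _
    simp only [h2, mul_sum]
    rw [sum_comm]
    have h3 : ∀ k, ∑ i, G j i * (jac φ i k * dl (FreeAlgebra.ι K k)) =
        (1 : Matrix (Fin n) (Fin n) (TT K n)) j k * dl (FreeAlgebra.ι K k) := by
      intro k
      rw [← hG, Matrix.mul_apply, sum_mul]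
      refine sum_congr rfl fun i _ => ?_
      rw [mul_assoc]
    rw [sum_congr rfl fun k _ => h3 k]
    simp [Matrix.one_apply]
  have h2 : ∀ (j : Fin n) (u : List (Fin n)), dl (Tw R u (FreeAlgebra.ι K j)) =
      ∑ i, idT (Tw R u) (G j i) * dl (φ (FreeAlgebra.ι K i)) := by
    intro j u
    induction u with
    | nil =>
      rw [Tw, idT_id]
      exact h1 j
    | cons l u ih =>
      have := (orbit_step (fun i => φ (FreeAlgebra.ι K i)) hPR ih l).2
      rw [Tw, LinearMap.comp_apply, this]
      refine sum_congr rfl fun i _ => ?_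
      rw [idT_comp]
  choose U hU hUm using fun (j i : Fin n) => exists_fd_e1 (G j i)
  let S : Set (FA K n) := {f | ∃ (u : List (Fin n)) (j : Fin n), f = Tw R u (FreeAlgebra.ι K j)}
  let V : Submodule K (FA K n) := (⨆ j, ⨆ i, U j i) ⊔
    Submodule.span K (Set.range fun j : Fin n => (FreeAlgebra.ι K j : FA K n))
  have hsp : FiniteDimensional K
      (Submodule.span K (Set.range fun j : Fin n => (FreeAlgebra.ι K j : FA K n))) :=
    FiniteDimensional.span_of_finite K (Set.finite_range _)
  have hV : FiniteDimensional K V := inferInstance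
  have hSV : Submodule.span K S ≤ V := by
    rw [Submodule.span_le]
    rintro f ⟨u, j, rfl⟩
    cases u with
    | nil => exact Submodule.mem_sup_right (Submodule.subset_span ⟨j, rfl⟩)
    | cons l u =>
      apply Submodule.mem_sup_left
      have := (orbit_step (fun i => φ (FreeAlgebra.ι K i)) hPR (h2 j u) l).1
      rw [Tw, LinearMap.comp_apply, this]
      exact Submodule.mem_iSup_of_mem j (Submodule.mem_iSup_of_mem l (hUm j l _))
  refine ⟨Submodule.span K S, Submodule.finiteDimensional_of_le hSV, fun j =>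
    Submodule.subset_span ⟨[], j, rfl⟩, fun l f hf => ?_⟩
  have : Submodule.span K S ≤ (Submodule.span K S).comap (Tq R l) := by
    rw [Submodule.span_le]
    rintro f ⟨u, j, rfl⟩
    exact Submodule.subset_span ⟨l :: u, j, rfl⟩
  exact this hf

end

end Pool.Agent.Q171.GE
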