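import Pool.Agent.Q171.GE.Orb

/-! # The pencil of a finite dimensional stable space -/

namespace Pool.Agent.Q171.GE

open Finset MulOpposite TensorProduct

set_option linter.unusedSectionVars false

universe u

variable {K : Type u} [Field K] {n : ℕ}

/-- order at least `m` -/
def Od (m : ℕ) (f : FA K n) : Prop := ∀ w : List (Fin n), w.length < m → eps (rqw w f) = 0

lemma Od.mul {m : ℕ} : ∀ {f : FA K n} (_ : Od m f) (g : FA K n), Od m (f * g) := by
  induction m with
  | zero => intro f _ g w hw; exact absurd hw (Nat.not_lt_zero _)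
  | succ m ih =>
    intro f hf g w hw
    rcases List.eq_nil_or_concat w with rfl | ⟨v, l, rfl⟩
    · change eps (f * g) = 0
      have : eps f = 0 := hf [] (Nat.succ_pos m)
      rw [map_mul, this, zero_mul]
    · rw [List.concat_eq_append] at hw ⊢
      have hv : v.length < m := by simpa using hw
      rw [rqw_append]
      change eps (rqw v (rq l (f * g))) = 0
      rw [rq_mul, map_add, map_add]
      have h1 : Od m f := fun u hu => hf u (by omega)
      have h2 : Od m (rq l f) := by
        intro u hu
        have := hf (u ++ [l]) (by simp; omega)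
        rwa [rqw_append] at this
      rw [ih h1 (rq l g) v hv, ih h2 _ v hv, add_zero]

lemma Od.mul_b {m : ℕ} {f b : FA K n} (hf : Od m f) (hb : eps b = 0) : Od (m + 1) (f * b) := by
  intro w hw
  rcases List.eq_nil_or_concat w with rfl | ⟨v, l, rfl⟩
  · change eps (f * b) = 0
    rw [map_mul, hb, mul_zero]
  · rw [List.concat_eq_append] at hw ⊢
    have hv : v.length < m := by simpa using hw
    rw [rqw_append]
    change eps (rqw v (rq l (f * b))) = 0
    rw [rq_mul, hb, map_zero, mul_zero, add_zero]
    exact hf.mul _ v hv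

lemma Od.sum {ι : Type*} {s : Finset ι} {m : ℕ} {f : ι → FA K n} (h : ∀ i ∈ s, Od m (f i)) :
    Od m (∑ i ∈ s, f i) := fun w hw => by
  rw [map_sum, map_sum]; exact sum_eq_zero fun i hi => h i hi w hw

lemma eq_zero_of_rec {b : Fin n → FA K n} (hb : ∀ k, eps (b k) = 0) (S : Set (FA K n))
    (hS : ∀ f ∈ S, ∃ g : Fin n → FA K n, (∀ l, g l ∈ S) ∧ f = ∑ l, g l * b l) :
    ∀ f ∈ S, f = 0 := by
  have key : ∀ m, ∀ f ∈ S, Od m f := by
    intro m
    induction m with
    | zero => intro f _ w hw; exact absurd hw (Nat.not_lt_zero _)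
    | succ m ih =>
      intro f hf
      obtain ⟨g, hg, rfl⟩ := hS f hf
      exact Od.sum fun l _ => (ih (g l) (hg l)).mul_b (hb l)
  intro f hf
  apply eq_zero_of_rqw
  intro w
  exact key (w.length + 1) f hf w (Nat.lt_succ_self _)

/-- the linear pencil `1 - ∑ A_l x_l` -/
noncomputable def pencil {r : ℕ} (A : Fin n → Matrix (Fin r) (Fin r) K) :
    Matrix (Fin r) (Fin r) (FA K n) :=
  Matrix.of fun c a => (if c = a then 1 else 0) - ∑ l, A l c a • (FreeAlgebra.ι K l : FA K n)

theorem exists_pencil (φ : FA K n →ₐ[K] FA K n) (hφ : ∀ k, eps (φ (FreeAlgebra.ι K k)) = 0)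
    {R : Matrix (Fin n) (Fin n) (FA K n)}
    (hPR : (Matrix.of fun k i => rq i (φ (FreeAlgebra.ι K k))) * R = 1)
    (hRP : R * (Matrix.of fun k i => rq i (φ (FreeAlgebra.ι K k))) = 1)
    {r0 : Matrix (Fin n) (Fin n) (FA K n)ᵐᵒᵖ} (h2 : (jac φ).map eT * r0 = 1)
    (W : Submodule K (FA K n)) [FiniteDimensional K W] (hW : ∀ l, ∀ f ∈ W, Tq R l f ∈ W) :
    ∃ (r : ℕ) (A : Fin n → Matrix (Fin r) (Fin r) K) (f : Fin r → FA K n),
      (∀ g ∈ W, g ∈ Submodule.span K (Set.range f)) ∧
      (∀ a, ∑ c, f c * φ (pencil A c a) = algebraMap K _ (eps (f a))) ∧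
      ∃ Ω : Matrix (Fin r) (Fin r) (FA K n), Ω * (pencil A).map φ = 1 := by
  classical
  let bs := Module.finBasis K W
  set r := Module.finrank K W with hr
  let f : Fin r → FA K n := fun a => bs a
  have hfW : ∀ a, f a ∈ W := fun a => (bs a).2
  let A : Fin n → Matrix (Fin r) (Fin r) K := fun l c a => bs.repr ⟨Tq R l (f a), hW l _ (hfW a)⟩ c
  have hA : ∀ l a, Tq R l (f a) = ∑ c, A l c a • f c := by
    intro l a
    have := congrArg Subtype.val (bs.sum_repr ⟨Tq R l (f a), hW l _ (hfW a)⟩)
    rw [Submodule.coe_sum] at this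
    exact this.symm
  have hφp : ∀ c a, φ (pencil A c a) =
      (if c = a then 1 else 0) - ∑ l, A l c a • φ (FreeAlgebra.ι K l) := by
    intro c a
    rw [pencil, Matrix.of_apply, map_sub, map_sum]
    congr 1
    · split_ifs <;> simp
    · refine sum_congr rfl fun l _ => ?_
      rw [map_smul]
  have heps : ∀ c a, eps (φ (pencil A c a)) = if c = a then 1 else 0 := by
    intro c a
    rw [hφp, map_sub, map_sum]
    have : ∀ l, eps (A l c a • φ (FreeAlgebra.ι K l)) = 0 := fun l => by
      rw [map_smul, hφ, smul_zero]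
    rw [sum_congr rfl fun l _ => this l]
    split_ifs <;> simp
  have hrow : ∀ a, ∑ c, f c * φ (pencil A c a) = algebraMap K _ (eps (f a)) := by
    intro a
    have h3 := Tq_sum (fun k => φ (FreeAlgebra.ι K k)) hφ hRP (f a)
    have h4 : ∑ c, f c * φ (pencil A c a) =
        f a - ∑ l, (∑ c, A l c a • f c) * φ (FreeAlgebra.ι K l) := by
      simp only [hφp, mul_sub, sum_sub_distrib, mul_sum, sum_mul]
      congr 1
      · simp
      · rw [sum_comm]
        refine sum_congr rfl fun l _ => sum_congr rfl fun c _ => ?_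
        rw [mul_smul_comm, smul_mul_assoc]
    rw [h4, sub_eq_iff_eq_add]
    conv_lhs => rw [h3]
    simp only [hA]
  refine ⟨r, A, f, ?_, hrow, ?_⟩
  · intro g hg
    have := congrArg Subtype.val (bs.sum_repr ⟨g, hg⟩)
    rw [Submodule.coe_sum] at this
    rw [← show ((⟨g, hg⟩ : W) : FA K n) = g from rfl, ← this]
    exact Submodule.sum_mem _ fun c _ => Submodule.smul_mem _ _ (Submodule.subset_span ⟨c, rfl⟩)
  · -- the rows which are constant
    let κs : Submodule K (Fin r → K) :=
      { carrier := {κ | ∃ ρ : Fin r → FA K n, ∀ a,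
          ∑ c, ρ c * φ (pencil A c a) = algebraMap K _ (κ a)}
        add_mem' := by
          rintro κ κ' ⟨ρ, hρ⟩ ⟨ρ', hρ'⟩
          refine ⟨ρ + ρ', fun a => ?_⟩
          simp only [Pi.add_apply, add_mul, sum_add_distrib, hρ, hρ', map_add]
        zero_mem' := ⟨0, fun a => by simp⟩
        smul_mem' := by
          rintro s κ ⟨ρ, hρ⟩
          refine ⟨s • ρ, fun a => ?_⟩
          simp only [Pi.smul_apply, smul_mul_assoc, ← smul_sum, hρ, smul_eq_mul, map_mul]
          rw [Algebra.smul_def] }
    have hc0 : (fun a => eps (f a)) ∈ κs := ⟨f, hrow⟩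
    have hstep : ∀ κ ∈ κs, ∀ m, (fun a => ∑ c, κ c * A m c a) ∈ κs := by
      rintro κ ⟨ρ, hρ⟩ m
      have hκ : ∀ a, κ a = eps (ρ a) := by
        intro a
        have := congrArg eps (hρ a)
        rw [AlgHom.commutes, map_sum] at this
        simp only [map_mul, heps] at this
        simpa using this.symm
      refine ⟨fun c => Tl r0 m (ρ c), fun a => ?_⟩
      have h3 := congrArg (Tl r0 m) (hρ a)
      rw [Tl_algebraMap, map_sum] at h3
      have h4 : ∀ l, Tl r0 m (φ (FreeAlgebra.ι K l)) = if l = m then 1 else 0 := by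
        intro l
        rw [Tl_apply]
        have := congrFun (congrFun h2 l) m
        rw [Matrix.mul_apply, Matrix.one_apply] at this
        have h5 : ∑ i, eT (Jd i (φ (FreeAlgebra.ι K l))) * r0 i m = if l = m then 1 else 0 := this
        rw [h5]
        split_ifs <;> simp
      have h5 : ∀ c, Tl r0 m (φ (pencil A c a)) = -algebraMap K _ (A m c a) := by
        intro c
        rw [hφp, map_sub, map_sum]
        have h6 : Tl r0 m (if c = a then (1 : FA K n) else 0) = 0 := by
          split_ifs
          · have := Tl_algebraMap r0 m 1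
            rwa [map_one] at this
          · simp
        rw [h6, zero_sub]
        congr 1
        have h7 : ∀ l, Tl r0 m (A l c a • φ (FreeAlgebra.ι K l)) =
            if l = m then algebraMap K _ (A l c a) else 0 := by
          intro l
          rw [map_smul, h4]
          split_ifs
          · rw [Algebra.algebraMap_eq_smul_one]
          · rw [smul_zero]
        rw [sum_congr rfl fun l _ => h7 l]
        simp
      have h8 : ∀ c, Tl r0 m (ρ c * φ (pencil A c a)) =
          Tl r0 m (ρ c) * φ (pencil A c a) - algebraMap K _ (κ c * A m c a) := by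
        intro c
        rw [Tl_mul, h5, hκ, smul_neg, ← sub_eq_add_neg, map_mul, Algebra.smul_def]
      rw [sum_congr rfl fun c _ => h8 c, sum_sub_distrib, sub_eq_zero] at h3
      rw [h3, map_sum]
    have htop : κs = ⊤ := by
      by_contra hne
      obtain ⟨F, hF0, hF⟩ := Submodule.exists_le_ker_of_lt_top κs (lt_top_iff_ne_top.2 hne)
      have hFv : ∀ κ : Fin r → K, F κ = ∑ c, κ c * F (Pi.single c 1) := by
        intro κ
        conv_lhs => rw [pi_eq_sum_univ' κ]
        rw [map_sum]
        refine sum_congr rfl fun c _ => ?_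
        rw [map_smul, smul_eq_mul]
      -- the annihilator
      let S : Set (FA K n) := {g | ∃ v : Fin r → K, (∀ κ ∈ κs, ∑ c, κ c * v c = 0) ∧
        g = ∑ c, v c • f c}
      have hS : ∀ g ∈ S, ∃ g' : Fin n → FA K n, (∀ l, g' l ∈ S) ∧
          g = ∑ l, g' l * φ (FreeAlgebra.ι K l) := by
        rintro g ⟨v, hv, rfl⟩
        refine ⟨fun l => Tq R l (∑ c, v c • f c), fun l => ?_, ?_⟩
        · refine ⟨fun c => ∑ c', A l c c' * v c', fun κ hκ => ?_, ?_⟩
          · have := hv _ (hstep κ hκ l)
            rw [← this]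
            simp only [mul_sum, sum_mul]
            rw [sum_comm]
            refine sum_congr rfl fun c _ => sum_congr rfl fun c' _ => ?_
            ring
          · simp only [map_sum, map_smul, hA, smul_sum, sum_smul, smul_smul]
            rw [sum_comm]
            refine sum_congr rfl fun c _ => sum_congr rfl fun c' _ => ?_
            rw [mul_comm]
        · have h3 := Tq_sum (fun k => φ (FreeAlgebra.ι K k)) hφ hRP (∑ c, v c • f c)
          have h4 : eps (∑ c, v c • f c) = 0 := by
            have := hv _ hc0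
            rw [map_sum, ← this]
            refine sum_congr rfl fun c _ => ?_
            rw [map_smul, smul_eq_mul, mul_comm]
          rw [h4, map_zero, zero_add] at h3
          exact h3
      have hz := eq_zero_of_rec hφ S hS (∑ c, F (Pi.single c 1) • f c)
        ⟨fun c => F (Pi.single c 1), fun κ hκ => by rw [← hFv]; exact hF hκ, rfl⟩
      have hz2 : ∑ c, F (Pi.single c 1) • bs c = 0 := by
        apply Subtype.ext
        rw [Submodule.coe_sum]
        exact hz
      have hz3 := Fintype.linearIndependent_iff.1 bs.linearIndependent _ hz2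
      apply hF0
      refine LinearMap.ext fun κ => ?_
      rw [hFv]
      simp [hz3]
    have hrows : ∀ a : Fin r, ∃ ρ : Fin r → FA K n, ∀ a',
        ∑ c, ρ c * φ (pencil A c a') = algebraMap K _ ((Pi.single a 1 : Fin r → K) a') := by
      intro a
      have : (Pi.single a 1 : Fin r → K) ∈ κs := by rw [htop]; trivial
      exact this
    choose ρ hρ using hrows
    refine ⟨Matrix.of ρ, ?_⟩
    ext1 a a'
    rw [Matrix.mul_apply, Matrix.one_apply]
    have := hρ a a'
    simp only [Matrix.of_apply, Matrix.map_apply]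
    rw [this, Pi.single_apply]
    by_cases h : a = a'
    · subst h; simp
    · rw [if_neg h, if_neg (Ne.symm h), map_zero]

end Pool.Agent.Q171.GE
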