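import Pool.Agent.Q171.GE.LemB

/-! # Right quotients in `K⟨x⟩ ⊗ S` -/

namespace Pool.Agent.Q171.GE

open Finset TensorProduct

variable {K : Type*} [Field K] {n : ℕ}

/-- the augmentation -/
noncomputable def eps : FA K n →ₐ[K] K := FreeAlgebra.lift K fun _ => 0

@[simp] lemma eps_ι (i : Fin n) : eps (K := K) (FreeAlgebra.ι K i) = 0 := by simp [eps]

/-- `f ↦ (f, D_i f; 0, ε f)` -/
noncomputable def rqHom (i : Fin n) : FA K n →ₐ[K] Matrix (Fin 2) (Fin 2) (FA K n) :=
  FreeAlgebra.lift K fun k => !![FreeAlgebra.ι K k, if k = i then 1 else 0; 0, 0]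

/-- the right quotient: `f = ε f + ∑ D_i(f) x_i` -/
noncomputable def rq (i : Fin n) : FA K n →ₗ[K] FA K n :=
  (Matrix.entryLinearMap K (FA K n) 0 1) ∘ₗ (rqHom i).toLinearMap

lemma rq_def (i : Fin n) (f : FA K n) : rq i f = rqHom i f 0 1 := rfl

lemma rqHom_aux (i : Fin n) (f : FA K n) : rqHom i f 0 0 = f ∧ rqHom i f 1 0 = 0 ∧
    rqHom i f 1 1 = algebraMap K _ (eps f) := by
  induction f using FreeAlgebra.induction with
  | grade0 r =>
    rw [AlgHom.commutes, AlgHom.commutes]
    simp [Matrix.algebraMap_matrix_apply]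
  | grade1 k =>
    simp [rqHom]
  | mul f g hf hg =>
    obtain ⟨f1, f2, f3⟩ := hf
    obtain ⟨g1, g2, g3⟩ := hg
    simp only [map_mul, Matrix.mul_apply, Fin.sum_univ_two, f1, f2, f3, g1, g2, g3]
    simp
  | add f g hf hg =>
    obtain ⟨f1, f2, f3⟩ := hf
    obtain ⟨g1, g2, g3⟩ := hg
    simp only [map_add, Matrix.add_apply, f1, f2, f3, g1, g2, g3]
    simp

lemma rq_mul (i : Fin n) (f g : FA K n) :
    rq i (f * g) = f * rq i g + rq i f * algebraMap K _ (eps g) := by
  rw [rq_def, map_mul, Matrix.mul_apply, Fin.sum_univ_two, (rqHom_aux i f).1,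
    (rqHom_aux i g).2.2]
  rfl

@[simp] lemma rq_algebraMap (i : Fin n) (r : K) : rq i (algebraMap K (FA K n) r) = 0 := by
  rw [rq_def, AlgHom.commutes]
  simp [Matrix.algebraMap_matrix_apply]

@[simp] lemma rq_one (i : Fin n) : rq i (1 : FA K n) = 0 := by
  have := rq_algebraMap (K := K) i 1
  rwa [map_one] at this

@[simp] lemma rq_ι (i k : Fin n) : rq i (FreeAlgebra.ι K k : FA K n) = if k = i then 1 else 0 := by
  rw [rq_def, rqHom, FreeAlgebra.lift_ι_apply]
  rfl

lemma rq_sum (f : FA K n) :
    f = algebraMap K _ (eps f) + ∑ i, rq i f * FreeAlgebra.ι K i := by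
  induction f using FreeAlgebra.induction with
  | grade0 r => simp
  | grade1 k => simp
  | mul f g hf hg =>
    have h1 : f * g = f * algebraMap K _ (eps g) + ∑ i, f * rq i g * FreeAlgebra.ι K i := by
      conv_lhs => rw [hg]
      rw [mul_add, mul_sum]
      simp only [mul_assoc]
    have h2 : f * algebraMap K _ (eps g) = algebraMap K _ (eps (f * g)) +
        ∑ i, rq i f * algebraMap K _ (eps g) * FreeAlgebra.ι K i := by
      conv_lhs => rw [hf]
      rw [add_mul, sum_mul, map_mul, map_mul]
      congr 1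
      refine sum_congr rfl fun i _ => ?_
      rw [mul_assoc, mul_assoc, ← Algebra.commutes]
    refine h1.trans ?_
    rw [h2, add_assoc, ← sum_add_distrib]
    refine congrArg (_ + ·) (sum_congr rfl fun i _ => ?_)
    rw [rq_mul, add_mul, add_comm]
  | add f g hf hg =>
    conv_lhs => rw [hf, hg]
    simp only [map_add, add_mul, sum_add_distrib]
    abel

/-! ## The tensor product with an algebra -/

/-- polynomials in `x` with coefficients in `S` -/
abbrev TS (K : Type*) [Field K] (n : ℕ) (S : Type*) [Ring S] [Algebra K S] := FA K n ⊗[K] S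

variable {S : Type*} [Ring S] [Algebra K S] {S' : Type*} [Ring S'] [Algebra K S']

/-- right quotients -/
noncomputable def DT (l : Fin n) : TS K n S →ₗ[K] TS K n S := (rq l).rTensor S

/-- the constant term -/
noncomputable def eT : TS K n S →ₐ[K] S :=
  Algebra.TensorProduct.lift ((Algebra.ofId K S).comp eps) (AlgHom.id K S)
    fun _ s => (Algebra.commutes _ s)

/-- constants -/
noncomputable def iT : S →ₐ[K] TS K n S := Algebra.TensorProduct.includeRight

/-- the variables -/
noncomputable def xT (l : Fin n) : TS K n S := (FreeAlgebra.ι K l : FA K n) ⊗ₜ 1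

@[simp] lemma DT_tmul (l : Fin n) (f : FA K n) (s : S) :
    DT l (f ⊗ₜ[K] s) = (rq l f) ⊗ₜ s := rfl

@[simp] lemma eT_tmul (f : FA K n) (s : S) : eT (f ⊗ₜ[K] s) = algebraMap K S (eps f) * s :=
  rfl

lemma iT_apply (s : S) : (iT s : TS K n S) = 1 ⊗ₜ s := rfl

@[simp] lemma eT_iT (s : S) : eT (iT s : TS K n S) = s := by simp [iT_apply]

@[simp] lemma DT_iT (l : Fin n) (s : S) : DT l (iT s : TS K n S) = 0 := by
  simp [iT_apply]

@[simp] lemma DT_one (l : Fin n) : DT l (1 : TS K n S) = 0 := by
  rw [Algebra.TensorProduct.one_def]; simp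

@[simp] lemma eT_xT (l : Fin n) : eT (xT l : TS K n S) = 0 := by simp [xT]

@[simp] lemma DT_xT (l k : Fin n) : DT l (xT k : TS K n S) = if k = l then 1 else 0 := by
  rw [xT, DT_tmul, rq_ι]
  split_ifs
  · rw [Algebra.TensorProduct.one_def]
  · simp

lemma DT_mul (l : Fin n) (a b : TS K n S) :
    DT l (a * b) = a * DT l b + DT l a * iT (eT b) := by
  induction a using TensorProduct.induction_on with
  | zero => simp
  | add a₁ a₂ h₁ h₂ => rw [add_mul, map_add, map_add, h₁, h₂, add_mul, add_mul]; abel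
  | tmul f s =>
    induction b using TensorProduct.induction_on with
    | zero => simp
    | add b₁ b₂ h₁ h₂ =>
      rw [mul_add, map_add, map_add, map_add, map_add, h₁, h₂, mul_add, mul_add]; abel
    | tmul g t =>
      rw [Algebra.TensorProduct.tmul_mul_tmul, DT_tmul, DT_tmul, DT_tmul, eT_tmul, iT_apply,
        Algebra.TensorProduct.tmul_mul_tmul, Algebra.TensorProduct.tmul_mul_tmul, rq_mul,
        add_tmul]
      congr 1
      rw [mul_one, ← Algebra.commutes, ← Algebra.smul_def, ← Algebra.smul_def,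
        TensorProduct.smul_tmul, mul_smul_comm]

lemma DT_sum (a : TS K n S) : a = iT (eT a) + ∑ l, DT l a * xT l := by
  induction a using TensorProduct.induction_on with
  | zero => simp
  | add a₁ a₂ h₁ h₂ =>
    conv_lhs => rw [h₁, h₂]
    simp only [map_add, add_mul, sum_add_distrib]
    abel
  | tmul f s =>
    conv_lhs => rw [rq_sum f]
    rw [add_tmul, sum_tmul, eT_tmul, iT_apply]
    congr 1
    · rw [← Algebra.smul_def, Algebra.algebraMap_eq_smul_one, TensorProduct.smul_tmul]
    · refine sum_congr rfl fun l _ => ?_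
      rw [DT_tmul, xT, Algebra.TensorProduct.tmul_mul_tmul, mul_one]

/-- iterated right quotients: `DTw [a, …, z] = D_a ∘ ⋯ ∘ D_z` -/
noncomputable def DTw : List (Fin n) → TS K n S →ₗ[K] TS K n S
  | [] => LinearMap.id
  | l :: u => DT l ∘ₗ DTw u

@[simp] lemma DTw_nil (a : TS K n S) : DTw [] a = a := rfl

@[simp] lemma DTw_cons (l : Fin n) (u : List (Fin n)) (a : TS K n S) :
    DTw (l :: u) a = DT l (DTw u a) := rfl

lemma DTw_append (v u : List (Fin n)) (a : TS K n S) :
    DTw (v ++ u) a = DTw v (DTw u a) := by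
  induction v with
  | nil => rfl
  | cons l v ih => rw [List.cons_append, DTw_cons, DTw_cons, ih]

@[simp] lemma DTw_iT (u : List (Fin n)) (hu : u ≠ []) (s : S) :
    DTw u (iT s : TS K n S) = 0 := by
  induction u with
  | nil => exact absurd rfl hu
  | cons l u ih =>
    rw [DTw_cons]
    by_cases h : u = []
    · subst h; simp
    · rw [ih h, map_zero]

lemma DT_mul_iT (l : Fin n) (a : TS K n S) (s : S) : DT l (a * iT s) = DT l a * iT s := by
  rw [DT_mul, DT_iT, mul_zero, zero_add, eT_iT]

lemma DTw_mul_iT (u : List (Fin n)) (a : TS K n S) (s : S) :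
    DTw u (a * iT s) = DTw u a * iT s := by
  induction u with
  | nil => rfl
  | cons l u ih => rw [DTw_cons, ih, DT_mul_iT, DTw_cons]

/-- `a` has degree `< d` in `x` -/
def DegLt (d : ℕ) (a : TS K n S) : Prop := ∀ w : List (Fin n), d ≤ w.length → DTw w a = 0

lemma DegLt.mono {d e : ℕ} (h : d ≤ e) {a : TS K n S} (ha : DegLt d a) : DegLt e a :=
  fun w hw => ha w (h.trans hw)

lemma DegLt.add {d : ℕ} {a b : TS K n S} (ha : DegLt d a) (hb : DegLt d b) :
    DegLt d (a + b) := fun w hw => by rw [map_add, ha w hw, hb w hw, add_zero]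

lemma DegLt.sub {d : ℕ} {a b : TS K n S} (ha : DegLt d a) (hb : DegLt d b) :
    DegLt d (a - b) := fun w hw => by rw [map_sub, ha w hw, hb w hw, sub_zero]

lemma DegLt.zero {d : ℕ} : DegLt d (0 : TS K n S) := fun _ _ => map_zero _

lemma DegLt.sum {ι : Type*} {s : Finset ι} {d : ℕ} {a : ι → TS K n S}
    (ha : ∀ i ∈ s, DegLt d (a i)) : DegLt d (∑ i ∈ s, a i) := fun w hw => by
  rw [map_sum]; exact sum_eq_zero fun i hi => ha i hi w hw

lemma DegLt.iT {d : ℕ} (hd : 1 ≤ d) (s : S) : DegLt d (iT s : TS K n S) := fun w hw =>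
  DTw_iT w (by rintro rfl; simp at hw; omega) s

lemma DegLt.DT {d : ℕ} {a : TS K n S} (ha : DegLt d a) (l : Fin n) : DegLt d (DT l a) := by
  intro w hw
  have := ha (w ++ [l]) (by simp; omega)
  rwa [DTw_append] at this

lemma DegLt.mul_iT {d : ℕ} {a : TS K n S} (ha : DegLt d a) (s : S) :
    DegLt d (a * GE.iT s) := fun w hw => by
  rw [DTw_mul_iT, ha w hw, zero_mul]

lemma DTw_mul_xT (w : List (Fin n)) (l : Fin n) (a : TS K n S) (k : Fin n) :
    DTw (w ++ [l]) (a * xT k) = if k = l then DTw w a else 0 := by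
  rw [DTw_append, DTw_cons, DTw_nil, DT_mul, DT_xT, eT_xT]
  split_ifs <;> simp

lemma DegLt.of_DT {d : ℕ} {a : TS K n S} (h : ∀ l, DegLt d (GE.DT l a)) : DegLt (d + 1) a := by
  intro w hw
  rcases List.eq_nil_or_concat w with rfl | ⟨v, l, rfl⟩
  · simp at hw
  · rw [List.concat_eq_append, DTw_append]
    apply h l
    simpa using hw

lemma exists_degLt_fa (f : FA K n) (s : S) : ∃ d, DegLt d (f ⊗ₜ[K] s : TS K n S) := by
  induction f using FreeAlgebra.induction generalizing s with
  | grade0 r =>
    refine ⟨1, ?_⟩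
    rw [Algebra.algebraMap_eq_smul_one, TensorProduct.smul_tmul]
    exact DegLt.iT le_rfl _
  | grade1 k =>
    refine ⟨2, DegLt.of_DT fun l => ?_⟩
    rw [DT_tmul, rq_ι]
    split_ifs
    · exact DegLt.iT le_rfl _
    · rw [zero_tmul]; exact DegLt.zero
  | mul f g hf hg =>
    obtain ⟨d, hd⟩ := hf s
    obtain ⟨e, he⟩ := hg (1 : S)
    -- induction on `e`
    have key : ∀ e : ℕ, ∀ b : TS K n S, DegLt e b →
        DegLt (d + e) ((f ⊗ₜ[K] s : TS K n S) * b) := by
      intro e
      induction e with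
      | zero =>
        intro b hb
        have : b = 0 := hb [] (Nat.zero_le _)
        rw [this, mul_zero]
        exact DegLt.zero
      | succ e ih =>
        intro b hb
        show DegLt (d + e + 1) _
        apply DegLt.of_DT
        intro l
        rw [DT_mul]
        apply DegLt.add
        · apply ih
          intro w hw
          have := hb (w ++ [l]) (by simpa using hw)
          rwa [DTw_append] at this
        · exact ((hd.DT l).mul_iT _).mono (by omega)
    refine ⟨d + e, ?_⟩
    have : ((f * g) ⊗ₜ[K] s : TS K n S) = (f ⊗ₜ[K] s : TS K n S) * (g ⊗ₜ[K] 1) := by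
      rw [Algebra.TensorProduct.tmul_mul_tmul, mul_one]
    rw [this]
    exact key e _ he
  | add f g hf hg =>
    obtain ⟨d, hd⟩ := hf s
    obtain ⟨e, he⟩ := hg s
    refine ⟨max d e, ?_⟩
    rw [add_tmul]
    exact (hd.mono (le_max_left _ _)).add (he.mono (le_max_right _ _))

lemma exists_degLt (a : TS K n S) : ∃ d, DegLt d a := by
  induction a using TensorProduct.induction_on with
  | zero => exact ⟨0, DegLt.zero⟩
  | add a b ha hb =>
    obtain ⟨d, hd⟩ := ha
    obtain ⟨e, he⟩ := hb
    exact ⟨max d e, (hd.mono (le_max_left _ _)).add (he.mono (le_max_right _ _))⟩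
  | tmul f s => exact exists_degLt_fa f s

/-- coefficients -/
noncomputable def cf (w : List (Fin n)) (a : TS K n S) : S := eT (DTw w a)

lemma cf_add (w : List (Fin n)) (a b : TS K n S) : cf w (a + b) = cf w a + cf w b := by
  simp [cf]

lemma cf_sub (w : List (Fin n)) (a b : TS K n S) : cf w (a - b) = cf w a - cf w b := by
  simp [cf]

lemma cf_zero (w : List (Fin n)) : cf w (0 : TS K n S) = 0 := by simp [cf]

lemma cf_sum {ι : Type*} (s : Finset ι) (w : List (Fin n)) (a : ι → TS K n S) :
    cf w (∑ i ∈ s, a i) = ∑ i ∈ s, cf w (a i) := by simp [cf]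

lemma cf_mul_iT (w : List (Fin n)) (a : TS K n S) (s : S) : cf w (a * iT s) = cf w a * s := by
  rw [cf, DTw_mul_iT, map_mul, eT_iT]; rfl

/-- an element is determined by its coefficients -/
theorem eq_zero_of_cf {a : TS K n S} (h : ∀ w, cf w a = 0) : a = 0 := by
  obtain ⟨d, hd⟩ := exists_degLt a
  have key : ∀ e, DegLt e a → a = 0 := by
    intro e
    induction e with
    | zero => intro he; exact he [] (Nat.zero_le _)
    | succ e ih =>
      intro he
      apply ih
      intro w hw
      rcases hw.eq_or_lt with h1 | h1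
      · rw [DT_sum (DTw w a)]
        have h2 : eT (DTw w a) = 0 := h w
        rw [h2, map_zero, zero_add]
        refine sum_eq_zero fun l _ => ?_
        have : DT l (DTw w a) = 0 := he (l :: w) (by simp; omega)
        rw [this, zero_mul]
      · exact he w h1
  exact key d hd

theorem ext_cf {a b : TS K n S} (h : ∀ w, cf w a = cf w b) : a = b := by
  rw [← sub_eq_zero]
  apply eq_zero_of_cf
  intro w
  rw [cf_sub, h, sub_self]

/-- every finitely supported family of coefficients comes from an element -/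
theorem exists_of_cf (s : ℕ) : ∀ c : List (Fin n) → S, (∀ w, s ≤ w.length → c w = 0) →
    ∃ a : TS K n S, ∀ w, cf w a = c w := by
  induction s with
  | zero =>
    intro c hc
    exact ⟨0, fun w => by rw [hc w (Nat.zero_le _), cf_zero]⟩
  | succ s ih =>
    intro c hc
    have : ∀ l : Fin n, ∃ a : TS K n S, ∀ w, cf w a = c (w ++ [l]) := fun l =>
      ih _ fun w hw => hc _ (by simpa using hw)
    choose z hz using this
    refine ⟨iT (c []) + ∑ l, z l * xT l, fun w => ?_⟩
    rcases List.eq_nil_or_concat w with rfl | ⟨v, l, rfl⟩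
    · simp [cf]
    · rw [List.concat_eq_append, cf_add, cf_sum]
      have h1 : cf (v ++ [l]) (iT (c []) : TS K n S) = 0 := by
        rw [cf, DTw_iT _ (by simp), map_zero]
      rw [h1, zero_add, ← hz l v]
      rw [Finset.sum_eq_single l]
      · rw [cf, DTw_mul_xT, if_pos rfl]; rfl
      · intro k _ hk
        rw [cf, DTw_mul_xT, if_neg hk, map_zero]
      · simp

/-! ## Functoriality -/

/-- the map induced by a homomorphism of the coefficients -/
noncomputable def mapT (h : S →ₐ[K] S') : TS K n S →ₐ[K] TS K n S' :=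
  Algebra.TensorProduct.map (AlgHom.id K _) h

@[simp] lemma mapT_tmul (h : S →ₐ[K] S') (f : FA K n) (s : S) :
    mapT h (f ⊗ₜ[K] s : TS K n S) = f ⊗ₜ h s := by simp [mapT]

@[simp] lemma mapT_iT (h : S →ₐ[K] S') (s : S) :
    mapT h (iT s : TS K n S) = iT (h s) := by rw [iT_apply, mapT_tmul, iT_apply]

lemma DT_mapT (h : S →ₐ[K] S') (l : Fin n) (a : TS K n S) :
    DT l (mapT h a) = mapT h (DT l a) := by
  induction a using TensorProduct.induction_on with
  | zero => simp
  | add a b ha hb => simp only [map_add, ha, hb]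
  | tmul f s => simp

lemma eT_mapT (h : S →ₐ[K] S') (a : TS K n S) : eT (mapT h a) = h (eT a) := by
  induction a using TensorProduct.induction_on with
  | zero => simp
  | add a b ha hb => simp only [map_add, ha, hb]
  | tmul f s => simp

lemma DTw_mapT (h : S →ₐ[K] S') (w : List (Fin n)) (a : TS K n S) :
    DTw w (mapT h a) = mapT h (DTw w a) := by
  induction w with
  | nil => rfl
  | cons l w ih => rw [DTw_cons, ih, DT_mapT, DTw_cons]

lemma cf_mapT (h : S →ₐ[K] S') (w : List (Fin n)) (a : TS K n S) :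
    cf w (mapT h a) = h (cf w a) := by rw [cf, DTw_mapT, eT_mapT]; rfl

end Pool.Agent.Q171.GE
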